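import Pool.Agent.Q225.Sim.Coef
import Pool.Agent.Q225.Ver.CloM

set_option autoImplicit false
set_option linter.unusedSectionVars false

/-!
# Lower bounds from third derivatives at diagonal matrices
-/

namespace Pool.Agent.Q225.Sim

open Matrix Pool.Agent.Q225.Add Pool.Agent.Q225.Dich Pool.Agent.W956.KF Pool.Agent.H53R3
  Polynomial Pool.Agent.Q225.Ver

section tensor

variable {K I J L : Type} [Field K] {f g : I → J → L → K} {r s : ℕ}

theorem tensor_add (hf : TensorRankLE f r) (hg : TensorRankLE g s) :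
    TensorRankLE (fun i j l => f i j l + g i j l) (r + s) := by
  obtain ⟨x, y, z, h⟩ := hf
  obtain ⟨x', y', z', h'⟩ := hg
  refine ⟨fun t i => Fin.addCases (fun t => x t i) (fun t => x' t i) t,
    fun t i => Fin.addCases (fun t => y t i) (fun t => y' t i) t,
    fun t i => Fin.addCases (fun t => z t i) (fun t => z' t i) t, fun i j l => ?_⟩
  beta_reduce
  rw [Fin.sum_univ_add, h, h']
  simp

theorem tensor_scale (hf : TensorRankLE f r) (a : I → K) (b : J → K) (c : L → K) :
    TensorRankLE (fun i j l => a i * b j * c l * f i j l) r := by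
  obtain ⟨x, y, z, h⟩ := hf
  refine ⟨fun t i => a i * x t i, fun t j => b j * y t j, fun t l => c l * z t l,
    fun i j l => ?_⟩
  beta_reduce
  rw [h, Finset.mul_sum]
  exact Finset.sum_congr rfl fun t _ => by ring

end tensor

/-- few multiplications -/
theorem tensor_compM {F : Type} [Field F] {V : Type} [DecidableEq V] [Fintype V]
    {D : V → Rt F V → Rt F V} (hD : ∀ x, IsDer (D x))
    (hc : ∀ x (c : F), D x (algebraMap F _ c) = 0)
    (hv : ∀ x j, D x (gz F V j) = if j = x then 1 else 0) {I J L : Type} (α : I → V)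
    (β : J → V) (γ : L → V) {f : Rt F V} {s : ℕ} (h : CompM F V {f} s) :
    TensorRankLE (fun i j l => D (α i) (D (β j) (D (γ l) f))) (6 * s) := by
  obtain ⟨h, hrun, hout⟩ := h
  have hθ : IsDer (fun _ : Rt F V => (0 : Rt F V)) := ⟨by simp, by simp⟩
  obtain ⟨P, Q, -, hPQ⟩ := relM hD hθ hc (fun _ => rfl) hrun
  have d2 : ∀ z ∈ Given F V, de2 D z = 0 := by
    rintro z (⟨c, rfl⟩ | ⟨x, rfl⟩)
    · funext i j
      simp [de2, hc, (hD _).zero]
    · funext i j
      show D i (D j (gz F V x)) = 0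
      rw [hv]
      split_ifs
      · exact (hD i).one
      · exact (hD i).zero
  have key := hPQ 0 (fun z hz => by rw [d2 z hz]; exact Submodule.zero_mem _)
    (fun z hz => by
      rw [J3, zero_smul, sub_zero]
      have : de3 D z = 0 := by
        funext i j k
        show D i (de2 D z j k) = 0
        rw [d2 z hz]
        exact (hD i).zero
      rw [this]
      exact Submodule.zero_mem _) f (hout f rfl)
  rw [J3, zero_smul, sub_zero] at key
  have := rank_of_memM3 key α β γ
  rw [Fintype.card_fin] at this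
  exact this

section

variable {F : Type} [Field F] {n : ℕ}

/-- the values of a linear functional at the polynomials `qp x s` -/
noncomputable def mu (L : F[X] →ₗ[F] F) (x : Fin n → F) (s : Finset (Fin n)) : F := L (qp x s)

variable (L : F[X] →ₗ[F] F) (x : Fin n → F)

theorem qp_pair {i j : Fin n} (hij : i ≠ j) :
    qp x {i} - qp x {j} = (x i - x j) • qp x {i, j} := by
  have e1 := qp_mul x (s := {j}) (i := i) (by simpa using hij)
  have e2 := qp_mul x (s := {i}) (i := j) (by simpa using hij.symm)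
  have e3 : insert j ({i} : Finset (Fin n)) = {i, j} := Finset.pair_comm _ _
  have e4 : insert i ({j} : Finset (Fin n)) = {i, j} := rfl
  rw [e3] at e2
  rw [e4] at e1
  rw [← e1, ← e2, Polynomial.smul_eq_C_mul, C_sub]
  ring

theorem qp_triple {i j k : Fin n} (hij : i ≠ j) (hik : i ≠ k) (hjk : j ≠ k) :
    qp x {i, j} - qp x {j, k} = (x i - x k) • qp x {i, j, k} := by
  have e1 := qp_mul x (s := {j, k}) (i := i) (by simp [hij, hik])
  have e2 := qp_mul x (s := {i, j}) (i := k) (by simp [hik.symm, hjk.symm])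
  have e3 : insert k ({i, j} : Finset (Fin n)) = {i, j, k} := by
    ext l
    simp only [Finset.mem_insert, Finset.mem_singleton]
    tauto
  have e4 : insert i ({j, k} : Finset (Fin n)) = {i, j, k} := rfl
  rw [e3] at e2
  rw [e4] at e1
  rw [← e1, ← e2, Polynomial.smul_eq_C_mul, C_sub]
  ring

theorem mu_pair {i j : Fin n} (hij : i ≠ j) :
    mu L x {i} - mu L x {j} = (x i - x j) * mu L x {i, j} := by
  rw [mu, mu, mu, ← map_sub, qp_pair x hij, map_smul, smul_eq_mul]

theorem mu_triple {i j k : Fin n} (hij : i ≠ j) (hik : i ≠ k) (hjk : j ≠ k) :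
    mu L x {i, j} - mu L x {j, k} = (x i - x k) * mu L x {i, j, k} := by
  rw [mu, mu, mu, ← map_sub, qp_triple x hij hik hjk, map_smul, smul_eq_mul]

/-- the weights after scaling -/
theorem mu_scaled {i j k : Fin n} (hij : i ≠ j) (hik : i ≠ k) (hjk : j ≠ k) :
    (x i - x j) * (x j - x k) * (x i - x k) * mu L x {i, j, k} =
      mu L x {i} * (x j - x k) + mu L x {j} * (x k - x i) + mu L x {k} * (x i - x j) := by
  have h1 := mu_triple L x hij hik hjk
  have h2 := mu_pair L x hij
  have h3 := mu_pair L x hjk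
  linear_combination (-(x i - x j) * (x j - x k)) * h1 - (x j - x k) * h2 + (x i - x j) * h3

/-- the weights of the combination of four tensors -/
noncomputable def wt (L : F[X] →ₗ[F] F) (x : Fin n → F) (i i' j j' : Fin n) : F :=
  (mu L x {i} - mu L x {i'}) * (x j - x j') - (mu L x {j} - mu L x {j'}) * (x i - x i')

theorem wt_eq {i i' j j' : Fin n} (hi : i ≠ i') (hj : j ≠ j') :
    wt L x i i' j j' = (x i - x i') * (x j - x j') * (mu L x {i, i'} - mu L x {j, j'}) := by
  rw [wt, mu_pair L x hi, mu_pair L x hj]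
  ring

end

section main

variable {F : Type} [Field F] [Infinite F] {n : ℕ} {σ : Type} [DecidableEq σ]
  {v : Fin n → Fin n → σ} {D : σ → Rt F σ → Rt F σ}

/-- **The combination of four tensors.** -/
theorem four {c : σ → F} {x : Fin n → F} {f : Rt F σ} {L : F[X] →ₗ[F] F} {s : F} (hs : s ≠ 0)
    (hval : ∀ i j j' k k' i' : Fin n, i ≠ j → i ≠ j' → i ≠ k → i ≠ k' → i' ≠ j → i' ≠ j' →
      i' ≠ k → i' ≠ k' → j ≠ k → j ≠ k' → j' ≠ k → j' ≠ k' →
      Vl c (D (v i j) (D (v j' k) (D (v k' i') f)))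
        (if j = j' ∧ k = k' ∧ i = i' then s * mu L x {i, j, k} else 0))
    {m : ℕ} (hm : 1 ≤ m) (a : Fin 5 → Fin m → Fin n)
    (ha : ∀ p q i j, a p i = a q j → p = q ∧ i = j)
    (hw : ∀ i j, wt L x (a 0 i) (a 1 i) (a 2 j) (a 3 j) ≠ 0) {r : ℕ}
    (hr : ∀ p q : Fin 5, p ≠ q → p ≠ 4 → q ≠ 4 →
      TensorRankLE (fun (i j l : Fin m × Fin m) => D (v (a p i.1) (a q i.2))
        (D (v (a q j.1) (a 4 j.2)) (D (v (a 4 l.2) (a p l.1)) f))) r) :
    (m : ℝ) ^ Pool.Agent.H826R3.SM.omegaMM F ≤ 4 * r := by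
  classical
  have hne : ∀ p q i j, p ≠ q → a p i ≠ a q j := fun p q i j h h' => h (ha p q i j h').1
  have hinj : ∀ p i j, a p i = a p j ↔ i = j :=
    fun p i j => ⟨fun h => (ha p p i j h).2, fun h => by rw [h]⟩
  let E : F →+* Rt F σ := algebraMap F (Rt F σ)
  -- the scaled tensor
  let T : Fin 5 → Fin 5 → F → Fin m × Fin m → Fin m × Fin m → Fin m × Fin m → Rt F σ :=
    fun p q ε i j l =>
      E (ε * (wt L x (a 0 i.1) (a 1 i.1) (a 2 i.2) (a 3 i.2))⁻¹ *
        (x (a p i.1) - x (a q i.2))) * E (x (a q j.1) - x (a 4 j.2)) *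
        E (x (a p l.1) - x (a 4 l.2)) *
        D (v (a p i.1) (a q i.2)) (D (v (a q j.1) (a 4 j.2)) (D (v (a 4 l.2) (a p l.1)) f))
  have hT : ∀ p q ε, p ≠ q → p ≠ 4 → q ≠ 4 → TensorRankLE (T p q ε) r :=
    fun p q ε h1 h2 h3 => tensor_scale (hr p q h1 h2 h3) _ _ _
  have hTv : ∀ p q ε, p ≠ q → p ≠ 4 → q ≠ 4 → ∀ i j l, Vl c (T p q ε i j l)
      (if i.2 = j.1 ∧ l.1 = i.1 ∧ l.2 = j.2 then
        ε * s * (wt L x (a 0 i.1) (a 1 i.1) (a 2 i.2) (a 3 i.2))⁻¹ *
        (mu L x {a p i.1} * (x (a q i.2) - x (a 4 j.2)) +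
          mu L x {a q i.2} * (x (a 4 j.2) - x (a p i.1)) +
          mu L x {a 4 j.2} * (x (a p i.1) - x (a q i.2))) else 0) := by
    intro p q ε h1 h2 h3 i j l
    have h := hval (a p i.1) (a q i.2) (a q j.1) (a 4 j.2) (a 4 l.2) (a p l.1)
      (hne _ _ _ _ h1) (hne _ _ _ _ h1) (hne _ _ _ _ h2) (hne _ _ _ _ h2)
      (hne _ _ _ _ h1) (hne _ _ _ _ h1) (hne _ _ _ _ h2) (hne _ _ _ _ h2)
      (hne _ _ _ _ h3) (hne _ _ _ _ h3) (hne _ _ _ _ h3) (hne _ _ _ _ h3)
    have h' := (((vl_const c (ε * (wt L x (a 0 i.1) (a 1 i.1) (a 2 i.2) (a 3 i.2))⁻¹ *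
        (x (a p i.1) - x (a q i.2)))).mul (vl_const c (x (a q j.1) - x (a 4 j.2)))).mul
        (vl_const c (x (a p l.1) - x (a 4 l.2)))).mul h
    convert h' using 1
    simp only [hinj]
    by_cases hmt : i.2 = j.1 ∧ l.1 = i.1 ∧ l.2 = j.2
    · obtain ⟨e1, e2, e3⟩ := hmt
      rw [if_pos ⟨e1, e2, e3⟩, if_pos ⟨e1, e3.symm, e2.symm⟩, e2, e3, ← e1]
      have := mu_scaled L x (hne p q i.1 i.2 h1) (hne p 4 i.1 j.2 h2) (hne q 4 i.2 j.2 h3)
      rw [← this]
      ring
    · rw [if_neg hmt, if_neg, mul_zero]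
      rintro ⟨e1, e2, e3⟩
      exact hmt ⟨e1, e3.symm, e2.symm⟩
  have hsum := tensor_add (tensor_add (hT 0 2 1 (by decide) (by decide) (by decide))
    (hT 1 2 (-1) (by decide) (by decide) (by decide)))
    (tensor_add (hT 0 3 (-1) (by decide) (by decide) (by decide))
      (hT 1 3 1 (by decide) (by decide) (by decide)))
  obtain ⟨A, B, C, hABC⟩ := hsum
  have := omega_of_border (F := F) (σ := σ) hm c A B C hs fun i j l => ?_
  · refine this.trans (le_of_eq ?_)
    push_cast
    ring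
  · rw [← hABC]
    have h := ((hTv 0 2 1 (by decide) (by decide) (by decide) i j l).add
      (hTv 1 2 (-1) (by decide) (by decide) (by decide) i j l)).add
      ((hTv 0 3 (-1) (by decide) (by decide) (by decide) i j l).add
      (hTv 1 3 1 (by decide) (by decide) (by decide) i j l))
    convert h using 1
    by_cases hmt : i.2 = j.1 ∧ l.1 = i.1 ∧ l.2 = j.2
    · simp only [if_pos hmt]
      have hw' := hw i.1 i.2
      field_simp
      rw [wt]
      ring
    · simp only [if_neg hmt, mul_zero, add_zero]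

end main

end Pool.Agent.Q225.Sim
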