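import Pool.Agent.Q225.Sim.Easy
import Pool.Agent.Q225.Dich.Final

set_option autoImplicit false
set_option linter.unusedSectionVars false

/-!
# The exponents of similarity invariants
-/

namespace Pool.Agent.Q225.Sim

open Matrix Pool.Agent.Q225.Add Pool.Agent.Q225.Dich Pool.Agent.W956.KF Pool.Agent.H53R3

/-- The variables of a general `n × n` matrix. -/
def general (n : ℕ) : Fin n → Fin n → Fin n × Fin n := fun i j => (i, j)

/-- The variables of a symmetric `n × n` matrix. -/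
def symmetric (n : ℕ) : Fin n → Fin n → Sym2 (Fin n) := fun i j => s(i, j)

/-- The elements of `Z` can be computed from the elements of `S` and constants with at most `s`
additions, multiplications and inversions. -/
def CompFrom (F : Type) [Field F] {K : Type} [Field K] [Algebra F K] (S Z : Set K) (s : ℕ) : Prop :=
  ∃ T', ReachLe (Set.range (algebraMap F K) ∪ S) s T' ∧ Z ⊆ T'

/-- The growth exponent of the cost `C`: the infimum of the `τ` such that for some `D`, for all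
`n ≥ 1`, some `s ≤ D n ^ τ` has the property `C n s`. -/
noncomputable def Exponent (C : ℕ → ℕ → Prop) : ℝ :=
  sInf {τ : ℝ | ∃ D : ℝ, ∀ n : ℕ, 1 ≤ n → ∃ s : ℕ, (s : ℝ) ≤ D * (n : ℝ) ^ τ ∧ C n s}

section

variable {F : Type} [Field F]

theorem kd_general (n : ℕ) : Kd (general n) (0 : F) :=
  Or.inl ⟨rfl, fun _ _ _ _ h => ⟨(Prod.ext_iff.1 h).1, (Prod.ext_iff.1 h).2⟩⟩

theorem kd_symmetric (n : ℕ) : Kd (symmetric n) (1 : F) := by
  refine Or.inr ⟨rfl, fun i j k l h => ?_, fun i j => Sym2.eq_swap⟩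
  simpa [symmetric] using h

end

theorem reachD_mono {L : Type} [Field L] {T T' U : Set L} {s : ℕ} (h : ReachD T s T')
    (hU : T ⊆ U) : ∃ U', ReachD U s U' ∧ T' ⊆ U' := by
  induction h with
  | refl => exact ⟨U, .refl, hU⟩
  | add _ hx hy ih =>
    obtain ⟨U', h1, h2⟩ := ih
    exact ⟨_, h1.add (h2 hx) (h2 hy), Set.insert_subset_insert h2⟩
  | mul _ hx hy ih =>
    obtain ⟨U', h1, h2⟩ := ih
    exact ⟨_, h1.mul (h2 hx) (h2 hy), Set.insert_subset_insert h2⟩
  | inv _ hx ih =>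
    obtain ⟨U', h1, h2⟩ := ih
    exact ⟨_, h1.inv (h2 hx), Set.insert_subset_insert h2⟩

theorem reachLe_mono {L : Type} [Field L] {T T' U : Set L} {s : ℕ} (h : ReachLe T s T')
    (hU : T ⊆ U) : ∃ U', ReachLe U s U' ∧ T' ⊆ U' := by
  obtain ⟨a, ha, h⟩ := h
  obtain ⟨U', h1, h2⟩ := reachD_mono h hU
  exact ⟨U', ⟨a, ha, h1⟩, h2⟩

section

variable {F σ : Type} [Field F] {n : ℕ} {v : Fin n → Fin n → σ}

/-- the coefficients of the characteristic polynomial -/
def coefs (F : Type) [Field F] {σ : Type} {n : ℕ} (v : Fin n → Fin n → σ) : Set (Rt F σ) :=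
  Set.range fun r : Fin n => kap F v (r : ℕ)

theorem compT_coefs [Infinite F] (hP : Pat v) : CompT F σ (coefs F v) (chCost F n) := by
  obtain ⟨T', h1, h2⟩ := reach_kap (F := F) hP
  refine ⟨T', h1, ?_⟩
  rintro _ ⟨r, rfl⟩
  exact h2 r

theorem compT_of_from [Infinite F] (hP : Pat v) {Z : Set (Rt F σ)} {s : ℕ}
    (h : CompFrom F (coefs F v) Z s) : CompT F σ Z (chCost F n + s) := by
  obtain ⟨T', h1, h2⟩ := h
  obtain ⟨T1, r1, h3⟩ := reach_kap (F := F) hP
  have hsub : Set.range (algebraMap F (Rt F σ)) ∪ coefs F v ⊆ T1 := by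
    rintro _ (⟨c, rfl⟩ | ⟨r, rfl⟩)
    · exact r1.subset (Or.inl ⟨c, rfl⟩)
    · exact h3 r
  obtain ⟨U', r2, h4⟩ := reachLe_mono h1 hsub
  exact ⟨U', r1.trans r2, h2.trans h4⟩

/-- the coefficients of `T ^ r` with `r + 3 ≤ n` are not functions of `tr X` and `tr X ^ 2` -/
theorem kap_indep [Infinite F] (hP : Pat v) (P : MvPolynomial (Fin n) F)
    (h : MvPolynomial.aeval (fun r : Fin n => kap F v (r : ℕ)) P = 0) : P = 0 := by
  refine dominant P fun x => ?_
  obtain ⟨c, hc⟩ := exists_point hP x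
  have h1 : MV c (gm F v) (Matrix.diagonal x) := by
    refine mv_of fun i j => ?_
    have h2 : Vl c (gz F σ (v i j)) (c (v i j)) := by
      have := Vl.poly c (MvPolynomial.X (v i j))
      rwa [MvPolynomial.aeval_X] at this
    rw [hc] at h2
    rw [Matrix.diagonal_apply]
    exact h2
  obtain ⟨S, hS1, hS2⟩ := h1
  have h2 : ∀ r : Fin n, io c (S.charpoly.coeff (r : ℕ)) = kap F v (r : ℕ) ∧
      Dich.pr c (S.charpoly.coeff (r : ℕ)) = kx x r := by
    intro r
    constructor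
    · rw [kap, ← hS1]
      have : ((io c).mapMatrix S).charpoly = S.charpoly.map (io c).toRingHom :=
        Matrix.charpoly_map S (io c).toRingHom
      rw [this, Polynomial.coeff_map]
      rfl
    · have : ((Dich.pr c).mapMatrix S).charpoly = S.charpoly.map (Dich.pr c).toRingHom :=
        Matrix.charpoly_map S (Dich.pr c).toRingHom
      rw [hS2, Matrix.charpoly_diagonal] at this
      rw [kx, this, Polynomial.coeff_map]
      rfl
  have h3 : io c (MvPolynomial.aeval (fun r : Fin n => S.charpoly.coeff (r : ℕ)) P) = 0 := by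
    rw [← h]
    have := MvPolynomial.comp_aeval (fun r : Fin n => S.charpoly.coeff (r : ℕ)) (io c)
    have h4 := congrFun (congrArg DFunLike.coe this) P
    rw [AlgHom.comp_apply] at h4
    rw [h4]
    congr 2
    funext r
    exact (h2 r).1
  have h4 : MvPolynomial.aeval (fun r : Fin n => S.charpoly.coeff (r : ℕ)) P = 0 :=
    io_injective c (h3.trans (map_zero _).symm)
  have h5 := congrArg (Dich.pr c) h4
  rw [map_zero] at h5
  have := MvPolynomial.comp_aeval (fun r : Fin n => S.charpoly.coeff (r : ℕ)) (Dich.pr c)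
  have h6 := congrFun (congrArg DFunLike.coe this) P
  rw [AlgHom.comp_apply] at h6
  rw [h6] at h5
  rw [← h5, ← MvPolynomial.aeval_eq_eval]
  congr 2
  funext r
  exact (h2 r).2.symm

theorem kap_notMem_Two [CharZero F] (hP : Pat v) (r : Fin n) (hr : (r : ℕ) + 3 ≤ n) :
    kap F v (r : ℕ) ∉ Two F v := by
  classical
  intro hmem
  set κ : Fin n → Rt F σ := fun r => kap F v (r : ℕ) with hκ
  have hne : Nonempty (Fin n) := ⟨r⟩
  let i1 : Fin n := ⟨n - 1, by omega⟩
  let i2 : Fin n := ⟨n - 2, by omega⟩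
  have e1 : (gm F v).trace = -κ i1 := by
    have h3 := Matrix.trace_eq_neg_charpoly_coeff (gm F v)
    rw [Fintype.card_fin] at h3
    exact h3
  have e2 : (gm F v * gm F v).trace = κ i1 ^ 2 - 2 * κ i2 := by
    have h3 := two_mul_coeff (gm F v) (by omega : 2 ≤ n)
    have h4 : κ i2 = (gm F v).charpoly.coeff (n - 2) := rfl
    rw [h4, h3, e1]
    ring
  have key : ∀ z ∈ Algebra.adjoin F ({(gm F v).trace, (gm F v * gm F v).trace} : Set (Rt F σ)),
      ∃ A : MvPolynomial (Fin n) F, MvPolynomial.pderiv r A = 0 ∧ MvPolynomial.aeval κ A = z := by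
    intro z hz
    induction hz using Algebra.adjoin_induction with
    | mem z hz =>
      have n1 : i1 ≠ r := fun h => by
        have := congrArg Fin.val h
        simp only [i1] at this
        omega
      have n2 : i2 ≠ r := fun h => by
        have := congrArg Fin.val h
        simp only [i2] at this
        omega
      rcases hz with rfl | rfl
      · refine ⟨-MvPolynomial.X i1, ?_, ?_⟩
        · rw [map_neg, MvPolynomial.pderiv_X_of_ne n1, neg_zero]
        · rw [map_neg, MvPolynomial.aeval_X, e1]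
      · refine ⟨MvPolynomial.X i1 ^ 2 - 2 * MvPolynomial.X i2, ?_, ?_⟩
        · rw [map_sub, MvPolynomial.pderiv_pow, MvPolynomial.pderiv_X_of_ne n1]
          have : (2 : MvPolynomial (Fin n) F) = MvPolynomial.C 2 :=
            (map_ofNat MvPolynomial.C 2).symm
          rw [this, MvPolynomial.pderiv_C_mul, MvPolynomial.pderiv_X_of_ne n2]
          simp
        · rw [map_sub, map_pow, map_mul, MvPolynomial.aeval_X, MvPolynomial.aeval_X, e2]
          simp
    | algebraMap a => exact ⟨MvPolynomial.C a, by simp, by simp⟩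
    | add a b _ _ ha hb =>
      obtain ⟨A, hA1, rfl⟩ := ha
      obtain ⟨B, hB1, rfl⟩ := hb
      exact ⟨A + B, by rw [map_add, hA1, hB1, add_zero], map_add _ _ _⟩
    | mul a b _ _ ha hb =>
      obtain ⟨A, hA1, rfl⟩ := ha
      obtain ⟨B, hB1, rfl⟩ := hb
      exact ⟨A * B, by rw [MvPolynomial.pderiv_mul, hA1, hB1, zero_mul, mul_zero, add_zero],
        map_mul _ _ _⟩
  obtain ⟨a, ha, b, hb, hab⟩ := IntermediateField.mem_adjoin_iff_div.1 hmem
  obtain ⟨A, hA1, rfl⟩ := key a ha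
  obtain ⟨B, hB1, rfl⟩ := key b hb
  have hX0 : κ r ≠ 0 := by
    intro h
    have := kap_indep (F := F) hP (MvPolynomial.X r) (by rw [MvPolynomial.aeval_X]; exact h)
    exact MvPolynomial.X_ne_zero r this
  have hB0 : MvPolynomial.aeval κ B ≠ 0 := by
    intro h
    rw [h, div_zero] at hab
    exact hX0 hab
  have h1 : MvPolynomial.aeval κ (MvPolynomial.X r * B - A) = 0 := by
    rw [map_sub, map_mul, MvPolynomial.aeval_X]
    have : κ r = MvPolynomial.aeval κ A / MvPolynomial.aeval κ B := hab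
    rw [this, div_mul_cancel₀ _ hB0, sub_self]
  have h2 := kap_indep hP _ h1
  have h3 := congrArg (MvPolynomial.pderiv r) h2
  rw [map_sub, MvPolynomial.pderiv_mul, hA1, hB1, map_zero, MvPolynomial.pderiv_X_self, one_mul,
    mul_zero, add_zero, sub_zero] at h3
  rw [h3, map_zero] at hB0
  exact hB0 rfl

end

section exponent

theorem exponent_lower {C : ℕ → ℕ → Prop} {w a b : ℝ} (hw : 0 < w) (ha : 0 ≤ a) (hb : 0 ≤ b)
    (h : ∀ n, 5 ≤ n → ∀ s, C n s → ((n / 5 : ℕ) : ℝ) ^ w ≤ a * s + b) {τ D : ℝ}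
    (hinf : {n : ℕ | ∃ s : ℕ, (s : ℝ) ≤ D * (n : ℝ) ^ τ ∧ C n s}.Infinite) : w ≤ τ := by
  by_contra hcon
  push Not at hcon
  set τ' := max τ 0 with hτ'
  have h1 : τ' < w := max_lt hcon hw
  have h0 : 0 ≤ τ' := le_max_right _ _
  set B := a * (|D| * 10 ^ τ') + b with hB
  have hlim : Filter.Tendsto (fun q : ℕ => (q : ℝ) ^ (w - τ')) Filter.atTop Filter.atTop :=
    (tendsto_rpow_atTop (by linarith)).comp tendsto_natCast_atTop_atTop
  obtain ⟨q₀, hq₀⟩ := Filter.eventually_atTop.1 (hlim.eventually_gt_atTop B)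
  obtain ⟨n, ⟨s, hs, hC⟩, hn⟩ := hinf.exists_gt (5 * q₀ + 5)
  set m := n / 5 with hm
  have hm1 : q₀ ≤ m := by omega
  have hm2 : 1 ≤ m := by omega
  have hm3 : n ≤ 10 * m := by omega
  have hm0 : (0 : ℝ) < m := by exact_mod_cast hm2
  have hmm : (1 : ℝ) ≤ m := by exact_mod_cast hm2
  have hn1 : (1 : ℝ) ≤ n := by exact_mod_cast (by omega : 1 ≤ n)
  have h2 := hq₀ m hm1
  have h3 := h n (by omega) s hC
  have h4 : (n : ℝ) ^ τ ≤ (n : ℝ) ^ τ' := Real.rpow_le_rpow_of_exponent_le hn1 (le_max_left _ _)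
  have h5 : (n : ℝ) ^ τ' ≤ 10 ^ τ' * (m : ℝ) ^ τ' := by
    rw [← Real.mul_rpow (by norm_num) hm0.le]
    exact Real.rpow_le_rpow (by linarith) (by exact_mod_cast hm3) h0
  have h6 : D * (n : ℝ) ^ τ ≤ |D| * (10 ^ τ' * (m : ℝ) ^ τ') :=
    mul_le_mul (le_abs_self D) (h4.trans h5) (by positivity) (abs_nonneg D)
  have h7 : (m : ℝ) ^ (w - τ') * (m : ℝ) ^ τ' = (m : ℝ) ^ w := by
    rw [← Real.rpow_add hm0, sub_add_cancel]
  have h8 : (1 : ℝ) ≤ (m : ℝ) ^ τ' := Real.one_le_rpow hmm h0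
  have h9 : a * (s : ℝ) ≤ a * (|D| * (10 ^ τ' * (m : ℝ) ^ τ')) :=
    mul_le_mul_of_nonneg_left (hs.trans h6) ha
  have h10 : b ≤ b * (m : ℝ) ^ τ' := by nlinarith
  have h11 : B * (m : ℝ) ^ τ' < (m : ℝ) ^ w := by
    rw [← h7]
    exact mul_lt_mul_of_pos_right h2 (by positivity)
  have h12 : B * (m : ℝ) ^ τ' = a * (|D| * (10 ^ τ' * (m : ℝ) ^ τ')) + b * (m : ℝ) ^ τ' := by
    rw [hB]
    ring
  linarith

theorem exponent_eq {C : ℕ → ℕ → Prop} {w a b : ℝ} (hw : 0 < w) (ha : 0 ≤ a) (hb : 0 ≤ b)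
    (h : ∀ n, 5 ≤ n → ∀ s, C n s → ((n / 5 : ℕ) : ℝ) ^ w ≤ a * s + b)
    (h' : ∀ τ : ℝ, w < τ → ∃ D : ℝ, ∀ n : ℕ, 1 ≤ n → ∃ s : ℕ, (s : ℝ) ≤ D * (n : ℝ) ^ τ ∧ C n s) :
    Exponent C = w := by
  have hlow : ∀ τ ∈ {τ : ℝ | ∃ D : ℝ, ∀ n : ℕ, 1 ≤ n → ∃ s : ℕ, (s : ℝ) ≤ D * (n : ℝ) ^ τ ∧ C n s},
      w ≤ τ := by
    rintro τ ⟨D, hD⟩
    refine exponent_lower hw ha hb h (τ := τ) (D := D) ?_
    refine Set.infinite_of_injective_forall_mem (f := fun k : ℕ => k + 1)
      (fun x y hxy => by simpa using hxy) fun k => hD (k + 1) (by omega)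
  unfold Exponent
  refine le_antisymm ?_ (le_csInf ⟨w + 1, h' (w + 1) (by linarith)⟩ hlow)
  refine le_of_forall_pos_le_add fun ε hε => ?_
  exact csInf_le ⟨w, hlow⟩ (h' (w + ε) (by linarith))

end exponent

section final

variable {F : Type} [Field F] [CharZero F]

/-- the total cost of invariants which are easily computed from the coefficients -/
theorem upper_all {σ : ℕ → Type} {v : ∀ n, Fin n → Fin n → σ n} (hP : ∀ n, Pat (v n))
    {f : ∀ n, Rt F (σ n)}
    (hf : ∀ τ : ℝ, omega F < τ → ∃ D : ℝ, ∀ n : ℕ, 1 ≤ n → ∃ s : ℕ, (s : ℝ) ≤ D * (n : ℝ) ^ τ ∧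
      CompFrom F (coefs F (v n)) {f n} s) {τ : ℝ} (hτ : omega F < τ) :
    ∃ D : ℝ, ∀ n : ℕ, 1 ≤ n → ∃ s : ℕ, (s : ℝ) ≤ D * (n : ℝ) ^ τ ∧ CompT F (σ n) {f n} s := by
  obtain ⟨D₁, -, hD₁⟩ := chCost_upper (F := F) (τ := τ) (by rwa [omega_eq] at hτ)
  obtain ⟨D₂, hD₂⟩ := hf τ hτ
  refine ⟨D₁ + D₂, fun n hn => ?_⟩
  obtain ⟨s, hs, hc⟩ := hD₂ n hn
  refine ⟨chCost F n + s, ?_, compT_of_from (hP n) hc⟩
  push_cast
  have := hD₁ n hn
  linarith

theorem exponents {σ : ℕ → Type} [∀ n, Fintype (σ n)] [∀ n, DecidableEq (σ n)]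
    {v : ∀ n, Fin n → Fin n → σ n} {θ : F} (hK : ∀ n, Kd (v n) θ)
    {f : ∀ n, Rt F (σ n)} (h1 : ∀ n, 5 ≤ n → f n ∈ Invs F (v n) ∧ f n ∉ Two F (v n))
    (hf : ∀ τ : ℝ, omega F < τ → ∃ D : ℝ, ∀ n : ℕ, 1 ≤ n → ∃ s : ℕ, (s : ℝ) ≤ D * (n : ℝ) ^ τ ∧
      CompFrom F (coefs F (v n)) {f n} s) :
    Exponent (fun n s => CompT F (σ n) {f n} s) = omega F ∧
    Exponent (fun n s => CompM F (σ n) {f n} s) = omega F ∧
    Exponent (fun n s => CompU F (σ n) {f n} s) = omega F ∧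
    Exponent (fun n s => CompP F (σ n) {f n} s) = omega F := by
  have hw : 0 < omega F := by
    rw [omega_eq]
    exact lt_of_lt_of_le two_pos (two_le_omegaMM F)
  have hlow := fun n hn s => lower_all hn (hK n) (h1 n hn).1 (h1 n hn).2 s
  simp only [← omega_eq] at hlow
  have hup := fun τ hτ => upper_all (fun n => (hK n).pat) hf (τ := τ) hτ
  refine ⟨?_, ?_, ?_, ?_⟩
  · refine exponent_eq (a := 24) (b := 0) hw (by norm_num) le_rfl (fun n hn s hs => ?_) hup
    obtain ⟨s', hs', h2⟩ := hs.compM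
    have h3 := (hlow n hn s').1 h2
    have h4 : (s' : ℝ) ≤ s := by exact_mod_cast hs'
    linarith
  · refine exponent_eq (a := 24) (b := 0) hw (by norm_num) le_rfl (fun n hn s hs => ?_)
      fun τ hτ => ?_
    · have := (hlow n hn s).1 hs
      linarith
    · obtain ⟨D, hD⟩ := hup τ hτ
      refine ⟨D, fun n hn => ?_⟩
      obtain ⟨s, hs, h2⟩ := hD n hn
      obtain ⟨s', hs', h3⟩ := h2.compM
      exact ⟨s', le_trans (by exact_mod_cast hs') hs, h3⟩
  · refine exponent_eq (a := 12) (b := 0) hw (by norm_num) le_rfl (fun n hn s hs => ?_)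
      fun τ hτ => ?_
    · have := (hlow n hn s).2.1 hs
      linarith
    · obtain ⟨D, hD⟩ := hup τ hτ
      refine ⟨3 * D, fun n hn => ?_⟩
      obtain ⟨s, hs, h2⟩ := hD n hn
      obtain ⟨s', hs', h3⟩ := h2.compU two_ne_zero
      refine ⟨s', ?_, h3⟩
      have : (s' : ℝ) ≤ 3 * s := by exact_mod_cast hs'
      linarith
  · refine exponent_eq (a := 36) (b := 12) hw (by norm_num) (by norm_num)
      (fun n hn s hs => (hlow n hn s).2.2 hs) fun τ hτ => ?_
    obtain ⟨D, hD⟩ := hup τ hτ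
    refine ⟨D, fun n hn => ?_⟩
    obtain ⟨s, hs, h2⟩ := hD n hn
    obtain ⟨s', hs', h3⟩ := h2.compP
    exact ⟨s', le_trans (by exact_mod_cast hs') hs, h3⟩

end final

end Pool.Agent.Q225.Sim
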