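import Pool.Agent.Q225.Sim.Val

set_option autoImplicit false
set_option linter.unusedSectionVars false

/-!
# Third derivatives of the coefficients of the characteristic polynomial
-/

namespace Pool.Agent.Q225.Sim

open Matrix Pool.Agent.Q225.Add Pool.Agent.Q225.Dich Pool.Agent.W956.KF Pool.Agent.H53R3
  Polynomial

/-- interpolation -/
theorem exists_interp {F : Type} [Field F] {n : ℕ} (t : Fin (n + 1) → F)
    (ht : Function.Injective t) (r : Fin (n + 1)) : ∃ lam : Fin (n + 1) → F,
      ∀ (A : Type) [CommRing A] [Algebra F A] (p : A[X]), p.natDegree ≤ n →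
        p.coeff r = ∑ s, lam s • p.eval (algebraMap F A (t s)) := by
  have hdet : IsUnit (Matrix.vandermonde t).det :=
    isUnit_iff_ne_zero.2 (Matrix.det_vandermonde_ne_zero_iff.2 ht)
  refine ⟨fun s => (Matrix.vandermonde t)⁻¹ r s, fun A _ _ p hp => ?_⟩
  have h1 : ∀ k : Fin (n + 1), ∑ s, (Matrix.vandermonde t)⁻¹ r s * t s ^ (k : ℕ) =
      if r = k then 1 else 0 := by
    intro k
    have := congrFun (congrFun (Matrix.nonsing_inv_mul _ hdet) r) k
    rw [Matrix.mul_apply, Matrix.one_apply] at this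
    exact this
  have h2 : ∀ s, p.eval (algebraMap F A (t s)) =
      ∑ k : Fin (n + 1), p.coeff k * algebraMap F A (t s ^ (k : ℕ)) := by
    intro s
    rw [Polynomial.eval_eq_sum_range' (Nat.lt_succ_of_le hp), Finset.sum_range]
    simp only [map_pow]
  simp only [h2, Finset.smul_sum]
  rw [Finset.sum_comm]
  have h3 : ∀ k : Fin (n + 1), ∑ s, (Matrix.vandermonde t)⁻¹ r s •
      (p.coeff k * algebraMap F A (t s ^ (k : ℕ))) = if r = k then p.coeff k else 0 := by
    intro k
    have : ∀ s, (Matrix.vandermonde t)⁻¹ r s • (p.coeff k * algebraMap F A (t s ^ (k : ℕ))) =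
        p.coeff k * algebraMap F A ((Matrix.vandermonde t)⁻¹ r s * t s ^ (k : ℕ)) := by
      intro s
      rw [Algebra.smul_def, map_mul]
      ring
    simp only [this]
    rw [← Finset.mul_sum, ← map_sum, h1]
    split_ifs <;> simp
  simp only [h3, Finset.sum_ite_eq, Finset.mem_univ, if_true]

section

variable {F : Type} [Field F] {n : ℕ}

/-- the polynomial with the roots `x l` with `l ∉ s` -/
noncomputable def qp (x : Fin n → F) (s : Finset (Fin n)) : F[X] := ∏ l ∈ sᶜ, (X - C (x l))

theorem qp_natDegree (x : Fin n → F) (s : Finset (Fin n)) : (qp x s).natDegree ≤ n := by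
  rw [qp, Polynomial.natDegree_prod_of_monic _ _ fun l _ => Polynomial.monic_X_sub_C _]
  simp only [Polynomial.natDegree_X_sub_C, Finset.sum_const, smul_eq_mul, mul_one]
  refine (Finset.card_le_univ _).trans ?_
  simp

theorem qp_eval (x : Fin n → F) (s : Finset (Fin n)) (τ : F) :
    (qp x s).eval τ = ∏ l ∈ sᶜ, (τ - x l) := by
  rw [qp, Polynomial.eval_prod]
  simp

theorem qp_mul (x : Fin n → F) {s : Finset (Fin n)} {i : Fin n} (hi : i ∉ s) :
    qp x (insert i s) * (X - C (x i)) = qp x s := by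
  unfold qp
  have : sᶜ = insert i (insert i s)ᶜ := by
    ext l
    simp only [Finset.mem_compl, Finset.mem_insert]
    constructor
    · intro h
      by_cases hl : l = i
      · exact Or.inl hl
      · exact Or.inr fun h' => h'.elim hl h
    · rintro (rfl | h)
      · exact hi
      · exact fun h' => h (Or.inr h')
  rw [this, Finset.prod_insert (by simp), mul_comm]

variable {σ : Type} [DecidableEq σ] {v : Fin n → Fin n → σ}
  {D : σ → Rt F σ → Rt F σ} (hD : ∀ x, IsDer (D x))
  (hc : ∀ x (c : F), D x (algebraMap F _ c) = 0)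
  (hv : ∀ x j, D x (gz F σ j) = if j = x then 1 else 0)

/-- the coefficients of the characteristic polynomial -/
noncomputable def kap (F : Type) [Field F] {σ : Type} {n : ℕ} (v : Fin n → Fin n → σ) (r : ℕ) :
    Rt F σ := (gm F v).charpoly.coeff r

theorem mv_cm {c : σ → F} {x : Fin n → F} (hcx : ∀ i j, c (v i j) = if i = j then x i else 0)
    (τ : F) : MV c (cm v τ) (Matrix.diagonal fun l => τ - x l) := by
  refine mv_of fun i j => ?_
  simp only [cm, Matrix.sub_apply, Matrix.algebraMap_matrix_apply, gm, Matrix.of_apply]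
  have h1 : Vl c (gz F σ (v i j)) (c (v i j)) := by
    have := Vl.poly c (MvPolynomial.X (v i j))
    rwa [MvPolynomial.aeval_X] at this
  by_cases hij : i = j
  · subst hij
    rw [if_pos rfl, Matrix.diagonal_apply_eq]
    rw [hcx, if_pos rfl] at h1
    exact vl_sub (vl_const c τ) h1
  · rw [if_neg hij, Matrix.diagonal_apply_ne _ hij]
    rw [hcx, if_neg hij] at h1
    simpa using vl_sub (vl_zero c) h1

theorem diag_inv (x : Fin n → F) {τ : F} (hτ : ∀ l, τ ≠ x l) :
    (Matrix.diagonal fun l => τ - x l)⁻¹ = Matrix.diagonal fun l => (τ - x l)⁻¹ := by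
  refine Matrix.inv_eq_right_inv ?_
  rw [Matrix.diagonal_mul_diagonal]
  have : (fun l => (τ - x l) * (τ - x l)⁻¹) = fun _ => (1 : F) :=
    funext fun l => mul_inv_cancel₀ (sub_ne_zero.2 (hτ l))
  rw [this, Matrix.diagonal_one]

include hD hc hv

section triple

variable {i j j' k k' i' : Fin n} (h1 : i ≠ j) (h2 : i ≠ j') (h3 : i ≠ k) (h4 : i ≠ k')
  (h5 : i' ≠ j) (h6 : i' ≠ j') (h7 : i' ≠ k) (h8 : i' ≠ k') (h9 : j ≠ k) (h10 : j ≠ k')
  (h11 : j' ≠ k) (h12 : j' ≠ k')

include h1 h2 h3 h4 h5 h6 h7 h8 h9 h10 h11 h12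

theorem jt_cm {θ : F} (hK : Kd v θ) {c : σ → F} {x : Fin n → F}
    (hcx : ∀ i j, c (v i j) = if i = j then x i else 0) {τ : F} (hτ : ∀ l, τ ≠ x l) :
    Jt c D (v i j) (v j' k) (v k' i') (cm v τ).det ((qp x ∅).eval τ)
      (if j = j' ∧ k = k' ∧ i = i' then -((1 + θ) * (qp x {i, j, k}).eval τ) else 0) := by
  have hP := hK.pat
  have hA := mv_cm hcx τ
  have hdet : (Matrix.diagonal fun l => τ - x l).det = (qp x ∅).eval τ := by
    rw [Matrix.det_diagonal, qp_eval]
    simp
  have h0 : (Matrix.diagonal fun l => τ - x l).det ≠ 0 := by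
    rw [Matrix.det_diagonal]
    exact Finset.prod_ne_zero_iff.2 fun l _ => sub_ne_zero.2 (hτ l)
  have := jt_det v hD hc hv τ hA h0 (a := v i j) (b := v j' k) (g := v k' i')
    (by rw [diag_inv x hτ]; exact trace_one hP _ h1)
    (by rw [diag_inv x hτ]; exact trace_one hP _ h11)
    (by rw [diag_inv x hτ]; exact trace_one hP _ h8.symm)
    (by
      rw [diag_inv x hτ]
      exact trace_two hP _ (fun h => h2 h.1) (fun h => h3 h.1))
    (by
      rw [diag_inv x hτ]
      exact trace_two hP _ (fun h => h4 h.1) (fun h => h10 h.2))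
    (by
      rw [diag_inv x hτ]
      exact trace_two hP _ (fun h => h12 h.1) (fun h => h6 h.1.symm))
  refine this.congr hD hdet ?_
  rw [diag_inv x hτ, trace_three h1 h2 h3 h4 h5 h6 h7 h8 h9 h10 h11 h12 hP,
    trace_three' h1 h2 h3 h4 h5 h6 h7 h8 h9 h10 h11 h12 hK, hdet]
  by_cases hm : j = j' ∧ k = k' ∧ i = i'
  · rw [if_pos hm, if_pos hm, if_pos hm]
    have e1 := qp_mul x (s := ∅) (i := k) (by simp)
    have e2 := qp_mul x (s := {k}) (i := j) (by simpa using h9)
    have e3 := qp_mul x (s := {j, k}) (i := i) (by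
      simp only [Finset.mem_insert, Finset.mem_singleton, not_or]
      exact ⟨h1, h3⟩)
    have e1' := congrArg (Polynomial.eval τ) e1
    have e2' := congrArg (Polynomial.eval τ) e2
    have e3' := congrArg (Polynomial.eval τ) e3
    simp only [Polynomial.eval_mul, Polynomial.eval_sub, Polynomial.eval_X, Polynomial.eval_C]
      at e1' e2' e3'
    have a1 := sub_ne_zero.2 (hτ i)
    have a2 := sub_ne_zero.2 (hτ j)
    have a3 := sub_ne_zero.2 (hτ k)
    have e4 : insert k (∅ : Finset (Fin n)) = {k} := rfl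
    rw [e4] at e1'
    have e5 : insert i ({j, k} : Finset (Fin n)) = {i, j, k} := rfl
    rw [e5] at e3'
    have e6 : insert j ({k} : Finset (Fin n)) = {j, k} := rfl
    rw [e6] at e2'
    rw [← e1', ← e2', ← e3']
    field_simp
  · rw [if_neg hm, if_neg hm, if_neg hm]
    simp

theorem jt_kap [Infinite F] {θ : F} (hK : Kd v θ) {c : σ → F} {x : Fin n → F}
    (hcx : ∀ i j, c (v i j) = if i = j then x i else 0) {r : ℕ} (hr : r ≤ n) :
    Jt c D (v i j) (v j' k) (v k' i') (kap F v r) ((qp x ∅).coeff r)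
      (if j = j' ∧ k = k' ∧ i = i' then -((1 + θ) * (qp x {i, j, k}).coeff r) else 0) := by
  classical
  obtain ⟨t, ht, ht'⟩ : ∃ t : Fin (n + 1) → F, Function.Injective t ∧ ∀ s l, t s ≠ x l := by
    have hinf : (Set.univ \ Set.range x).Infinite :=
      Set.infinite_univ.sdiff (Set.finite_range x)
    obtain ⟨T, hT, hT'⟩ := hinf.exists_subset_card_eq (n + 1)
    let e := (T.equivFinOfCardEq hT').symm
    refine ⟨fun s => (e s : F), fun a b h => e.injective (Subtype.ext h), fun s l h => ?_⟩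
    exact (hT (e s).2).2 ⟨l, h.symm⟩
  obtain ⟨lam, hlam⟩ := exists_interp t ht ⟨r, Nat.lt_succ_of_le hr⟩
  have e1 : kap F v r = ∑ s, lam s • (cm v (t s)).det := by
    have := hlam (Rt F σ) (gm F v).charpoly (by rw [Matrix.charpoly_natDegree_eq_dim]; simp)
    rw [kap]
    rw [this]
    refine Finset.sum_congr rfl fun s _ => ?_
    rw [Matrix.eval_charpoly]
    rfl
  have e2 : (qp x ∅).coeff r = ∑ s, lam s * (qp x ∅).eval (t s) :=
    hlam F (qp x ∅) (qp_natDegree _ _)
  have e3 : (qp x {i, j, k}).coeff r = ∑ s, lam s * (qp x {i, j, k}).eval (t s) :=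
    hlam F (qp x {i, j, k}) (qp_natDegree _ _)
  rw [e1, e2, e3]
  have := jt_sum hD hc (c := c) (a := v i j) (b := v j' k) (g := v k' i') Finset.univ
    (f := fun s => lam s • (cm v (t s)).det) fun s _ =>
    (jt_cm hD hc hv h1 h2 h3 h4 h5 h6 h7 h8 h9 h10 h11 h12 hK hcx (ht' s)).smul hD hc (lam s)
  refine this.congr hD rfl ?_
  by_cases hm : j = j' ∧ k = k' ∧ i = i'
  · simp only [if_pos hm, Finset.mul_sum, ← Finset.sum_neg_distrib]
    exact Finset.sum_congr rfl fun s _ => by ring
  · simp only [if_neg hm, mul_zero, Finset.sum_const_zero]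

end triple

end

end Pool.Agent.Q225.Sim
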