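import Pool.Agent.Q225.Sim.Up

set_option autoImplicit false
set_option linter.unusedSectionVars false

/-!
# The invariants which are functions of two traces
-/

namespace Pool.Agent.Q225.Sim

open Matrix Pool.Agent.Q225.Add Pool.Agent.Q225.Dich Pool.Agent.W956.KF Pool.Agent.H53R3

section pol

variable {F : Type} [Field F] {ι : Type}

theorem notMem_vars_of_pderiv [CharZero F] {P : MvPolynomial ι F} {r : ι}
    (h : MvPolynomial.pderiv r P = 0) : r ∉ P.vars := by
  classical
  intro hr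
  obtain ⟨m, hm, hrm⟩ := (MvPolynomial.mem_vars_iff_mem_support r).1 hr
  have h0 : m r ≠ 0 := Finsupp.mem_support_iff.1 hrm
  have h1 := MvPolynomial.coeff_pderiv (i := r) P (m - Finsupp.single r 1)
  have h2 : m - Finsupp.single r 1 + Finsupp.single r 1 = m := by
    refine tsub_add_cancel_of_le ?_
    rw [Finsupp.single_le_iff]
    omega
  rw [h, h2, MvPolynomial.coeff_zero] at h1
  have h3 : MvPolynomial.coeff m P ≠ 0 := MvPolynomial.mem_support_iff.1 hm
  have h4 : (((m - Finsupp.single r 1 : ι →₀ ℕ) r : ℕ) : F) + 1 ≠ 0 := by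
    exact Nat.cast_add_one_ne_zero _
  exact mul_ne_zero h3 h4 h1.symm

theorem pderiv_eq_zero_of_dvd {Q : MvPolynomial ι F} {r : ι}
    (h : Q ∣ MvPolynomial.pderiv r Q) : MvPolynomial.pderiv r Q = 0 := by
  classical
  by_contra hne
  obtain ⟨G, hG⟩ := h
  have hQ : Q ≠ 0 := by
    rintro rfl
    rw [map_zero] at hne
    exact hne rfl
  have hG0 : G ≠ 0 := by
    rintro rfl
    rw [mul_zero] at hG
    exact hne hG
  have h1 := congrArg (MvPolynomial.degreeOf r) hG
  rw [MvPolynomial.degreeOf_mul_eq hQ hG0] at h1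
  have hm : ∀ m ∈ (MvPolynomial.pderiv r Q).support, m r + 1 ≤ MvPolynomial.degreeOf r Q := by
    intro m hm
    rw [MvPolynomial.mem_support_iff, MvPolynomial.coeff_pderiv] at hm
    have h2 : m + Finsupp.single r 1 ∈ Q.support :=
      MvPolynomial.mem_support_iff.2 (left_ne_zero_of_mul hm)
    have h3 := MvPolynomial.monomial_le_degreeOf r h2
    simpa using h3
  have h4 : MvPolynomial.degreeOf r (MvPolynomial.pderiv r Q) < MvPolynomial.degreeOf r Q := by
    obtain ⟨m, hm'⟩ := MvPolynomial.support_nonempty.2 hne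
    have h5 : 0 < MvPolynomial.degreeOf r Q := by
      have := hm m hm'
      omega
    rw [MvPolynomial.degreeOf_lt_iff h5]
    intro m hm'
    have := hm m hm'
    omega
  omega

theorem aeval_mem_of_vars {K : Type} [Field K] [Algebra F K] {P : MvPolynomial ι F}
    (E : IntermediateField F K) {κ : ι → K} (h : ∀ r ∈ P.vars, κ r ∈ E) :
    MvPolynomial.aeval κ P ∈ E := by
  have h1 : P ∈ MvPolynomial.supported F (P.vars : Set ι) := MvPolynomial.mem_supported.2 le_rfl
  rw [MvPolynomial.supported_eq_adjoin_X] at h1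
  have h2 : MvPolynomial.aeval κ P ∈ (Algebra.adjoin F
      (MvPolynomial.X '' (P.vars : Set ι))).map (MvPolynomial.aeval κ) := ⟨P, h1, rfl⟩
  rw [AlgHom.map_adjoin] at h2
  refine (Algebra.adjoin_le (S := E.toSubalgebra) ?_) h2
  rintro _ ⟨_, ⟨r, hr, rfl⟩, rfl⟩
  rw [MvPolynomial.aeval_X]
  exact h r hr

end pol

section

variable {F σ : Type} [Field F] {n : ℕ}

/-- the field of the rational similarity invariants of the matrix `gm F v`: the rational functions
of the coefficients of its characteristic polynomial -/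
noncomputable def Invs (F : Type) [Field F] {σ : Type} {n : ℕ} (v : Fin n → Fin n → σ) :
    IntermediateField F (Rt F σ) :=
  IntermediateField.adjoin F (Set.range fun r : Fin n => kap F v (r : ℕ))

/-- the rational functions of `tr X` and `tr X ^ 2` -/
noncomputable def Two (F : Type) [Field F] {σ : Type} {n : ℕ} (v : Fin n → Fin n → σ) :
    IntermediateField F (Rt F σ) :=
  IntermediateField.adjoin F {(gm F v).trace, (gm F v * gm F v).trace}

theorem exists_rep [CharZero F] {v : Fin n → Fin n → σ} {f : Rt F σ} (hf : f ∈ Invs F v)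
    (E : IntermediateField F (Rt F σ)) (hE : ∀ r : Fin n, n < (r : ℕ) + 3 → kap F v (r : ℕ) ∈ E)
    (hfE : f ∉ E) : ∃ P Q : MvPolynomial (Fin n) F, Q ≠ 0 ∧ f = inva v P Q ∧
      ∃ r : Fin n, (r : ℕ) + 3 ≤ n ∧ Rn P Q r ≠ 0 := by
  obtain ⟨P₀, Q₀, hPQ⟩ := (IntermediateField.mem_adjoin_range_iff F _ _).1 hf
  have hQ₀ : MvPolynomial.aeval (fun r : Fin n => kap F v (r : ℕ)) Q₀ ≠ 0 := by
    intro h
    rw [h, div_zero] at hPQ
    rw [hPQ] at hfE
    exact hfE E.zero_mem
  have hQ₀' : Q₀ ≠ 0 := by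
    rintro rfl
    rw [map_zero] at hQ₀
    exact hQ₀ rfl
  obtain ⟨Q, P, c, hrel, hQ, hP⟩ := UniqueFactorizationMonoid.exists_reduced_factors Q₀ hQ₀' P₀
  have hc0 : MvPolynomial.aeval (fun r : Fin n => kap F v (r : ℕ)) c ≠ 0 := by
    intro h
    rw [← hQ, map_mul, h, zero_mul] at hQ₀
    exact hQ₀ rfl
  have hf' : f = inva v P Q := by
    rw [hPQ, inva, ← hQ, ← hP, map_mul, map_mul, mul_div_mul_left _ _ hc0]
  have hQne : Q ≠ 0 := by
    rintro rfl
    rw [mul_zero] at hQ
    exact hQ₀' hQ.symm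
  refine ⟨P, Q, hQne, hf', ?_⟩
  by_contra hcon
  push Not at hcon
  have hQr : ∀ r : Fin n, (r : ℕ) + 3 ≤ n → MvPolynomial.pderiv r Q = 0 := by
    intro r hr
    have h1 := hcon r hr
    rw [Rn, sub_eq_zero] at h1
    have h2 : Q ∣ P * MvPolynomial.pderiv r Q := ⟨MvPolynomial.pderiv r P, by rw [← h1, mul_comm]⟩
    exact pderiv_eq_zero_of_dvd (hrel.dvd_of_dvd_mul_left h2)
  have hPr : ∀ r : Fin n, (r : ℕ) + 3 ≤ n → MvPolynomial.pderiv r P = 0 := by
    intro r hr
    have h1 := hcon r hr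
    rw [Rn, hQr r hr, mul_zero, sub_zero] at h1
    exact (mul_eq_zero.1 h1).resolve_right hQne
  apply hfE
  rw [hf', inva]
  refine E.div_mem (aeval_mem_of_vars E fun r hr => hE r ?_)
    (aeval_mem_of_vars E fun r hr => hE r ?_)
  · by_contra h
    exact notMem_vars_of_pderiv (hPr r (by omega)) hr
  · by_contra h
    exact notMem_vars_of_pderiv (hQr r (by omega)) hr

end

section traces

variable {R : Type} [CommRing R] {n : ℕ}

theorem det_pair (M : Matrix (Fin n) (Fin n) R) {i j : Fin n} (hij : i ≠ j) :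
    (M.submatrix (Subtype.val : ({i, j} : Finset (Fin n)) → Fin n)
      (Subtype.val : ({i, j} : Finset (Fin n)) → Fin n)).det = M i i * M j j - M i j * M j i := by
  let f : Fin 2 → ({i, j} : Finset (Fin n)) := ![⟨i, by simp⟩, ⟨j, by simp⟩]
  have hf : Function.Bijective f := by
    constructor
    · intro a b hab
      fin_cases a <;> fin_cases b <;> simp_all [f]
    · rintro ⟨l, hl⟩
      simp only [Finset.mem_insert, Finset.mem_singleton] at hl
      rcases hl with rfl | rfl
      · exact ⟨0, rfl⟩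
      · exact ⟨1, rfl⟩
  let e := Equiv.ofBijective f hf
  rw [← Matrix.det_submatrix_equiv_self e, Matrix.det_fin_two]
  rfl

theorem two_mul_coeff (M : Matrix (Fin n) (Fin n) R) (hn : 2 ≤ n) :
    2 * M.charpoly.coeff (n - 2) = M.trace ^ 2 - (M * M).trace := by
  classical
  have h1 := Matrix.charpoly_coeff_eq_sum_minors M 2 (by simpa using hn)
  rw [Fintype.card_fin] at h1
  rw [h1]
  have h2 : ∑ p ∈ (Finset.univ : Finset (Fin n)).offDiag,
      (M p.1 p.1 * M p.2 p.2 - M p.1 p.2 * M p.2 p.1) =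
      2 * ∑ s ∈ Finset.univ.powersetCard 2, (M.submatrix (Subtype.val : s → Fin n)
        (Subtype.val : s → Fin n)).det := by
    rw [Finset.mul_sum]
    rw [← Finset.sum_fiberwise_of_maps_to (s := (Finset.univ : Finset (Fin n)).offDiag)
      (t := Finset.univ.powersetCard 2) (g := fun p : Fin n × Fin n => ({p.1, p.2} : Finset (Fin n)))]
    · refine Finset.sum_congr rfl fun s hs => ?_
      obtain ⟨i, j, hij, rfl⟩ := Finset.card_eq_two.1 (Finset.mem_powersetCard.1 hs).2
      have h3 : (Finset.univ : Finset (Fin n)).offDiag.filter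
          (fun p => ({p.1, p.2} : Finset (Fin n)) = {i, j}) = {(i, j), (j, i)} := by
        ext ⟨a, b⟩
        simp only [Finset.mem_filter, Finset.mem_offDiag, Finset.mem_univ, true_and,
          Finset.mem_insert, Finset.mem_singleton, Prod.mk.injEq]
        constructor
        · rintro ⟨hab, h⟩
          have ha : a ∈ ({i, j} : Finset (Fin n)) := by rw [← h]; simp
          have hb : b ∈ ({i, j} : Finset (Fin n)) := by rw [← h]; simp
          simp only [Finset.mem_insert, Finset.mem_singleton] at ha hb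
          rcases ha with rfl | rfl <;> rcases hb with rfl | rfl
          · exact absurd rfl hab
          · exact Or.inl ⟨rfl, rfl⟩
          · exact Or.inr ⟨rfl, rfl⟩
          · exact absurd rfl hab
        · rintro (⟨rfl, rfl⟩ | ⟨rfl, rfl⟩)
          · exact ⟨hij, rfl⟩
          · exact ⟨hij.symm, Finset.pair_comm _ _⟩
      rw [h3, Finset.sum_pair (by simp [hij]), det_pair M hij]
      ring
    · intro p hp
      rw [Finset.mem_powersetCard]
      exact ⟨Finset.subset_univ _, Finset.card_pair (Finset.mem_offDiag.1 hp).2.2⟩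
  have h3 : ∑ p ∈ (Finset.univ : Finset (Fin n)).offDiag,
      (M p.1 p.1 * M p.2 p.2 - M p.1 p.2 * M p.2 p.1) =
      ∑ p : Fin n × Fin n, (M p.1 p.1 * M p.2 p.2 - M p.1 p.2 * M p.2 p.1) := by
    refine Finset.sum_subset (Finset.subset_univ _) ?_
    intro p _ hp
    have : p.1 = p.2 := by
      by_contra h
      exact hp (Finset.mem_offDiag.2 ⟨Finset.mem_univ _, Finset.mem_univ _, h⟩)
    rw [this]
    ring
  have h4 : (M * M).trace = ∑ p : Fin n × Fin n, M p.1 p.2 * M p.2 p.1 := by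
    rw [Matrix.trace, Fintype.sum_prod_type]
    rfl
  have h5 : M.trace ^ 2 = ∑ p : Fin n × Fin n, M p.1 p.1 * M p.2 p.2 := by
    rw [pow_two, Matrix.trace, Finset.sum_mul_sum, Fintype.sum_prod_type]
    rfl
  rw [h4, h5, ← Finset.sum_sub_distrib, ← h3, h2]
  ring

end traces

section

variable {F σ : Type} [Field F] [CharZero F] {n : ℕ}

theorem kap_mem_Two {v : Fin n → Fin n → σ} (r : Fin n) (hr : n < (r : ℕ) + 3) :
    kap F v (r : ℕ) ∈ Two F v := by
  have h1 : (gm F v).trace ∈ Two F v := IntermediateField.subset_adjoin _ _ (Or.inl rfl)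
  have h2 : (gm F v * gm F v).trace ∈ Two F v :=
    IntermediateField.subset_adjoin _ _ (Or.inr rfl)
  have hr2 := r.2
  have hne : Nonempty (Fin n) := ⟨r⟩
  have hcase : (r : ℕ) = n - 1 ∨ ((r : ℕ) = n - 2 ∧ 2 ≤ n) := by omega
  rcases hcase with h | ⟨h, hn⟩
  · have h3 := Matrix.trace_eq_neg_charpoly_coeff (gm F v)
    rw [Fintype.card_fin] at h3
    have h4 : kap F v (r : ℕ) = -(gm F v).trace := by
      rw [h3, neg_neg, kap, h]
    rw [h4]
    exact (Two F v).neg_mem h1
  · have h3 := two_mul_coeff (gm F v) hn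
    have h4 : kap F v (r : ℕ) = ((gm F v).trace ^ 2 - (gm F v * gm F v).trace) / 2 := by
      rw [← h3, kap, h]
      have : (2 : Rt F σ) ≠ 0 := by
        have : algebraMap F (Rt F σ) 2 ≠ 0 := by
          rw [Ne, map_eq_zero]
          exact two_ne_zero
        rwa [map_ofNat] at this
      field_simp
    rw [h4]
    exact (Two F v).div_mem ((Two F v).sub_mem ((Two F v).pow_mem h1 2) h2)
      ((Two F v).natCast_mem 2)

/-- **Lower bounds for all similarity invariants.** -/
theorem lower_all [Fintype σ] [DecidableEq σ] (hn : 5 ≤ n) {v : Fin n → Fin n → σ} {θ : F}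
    (hK : Kd v θ) {f : Rt F σ} (hf : f ∈ Invs F v) (hf' : f ∉ Two F v) (s : ℕ) :
    (CompM F σ {f} s → ((n / 5 : ℕ) : ℝ) ^ Pool.Agent.H826R3.SM.omegaMM F ≤ 24 * s) ∧
    (CompU F σ {f} s → ((n / 5 : ℕ) : ℝ) ^ Pool.Agent.H826R3.SM.omegaMM F ≤ 12 * s) ∧
    (CompP F σ {f} s → ((n / 5 : ℕ) : ℝ) ^ Pool.Agent.H826R3.SM.omegaMM F ≤ 36 * s + 12) := by
  obtain ⟨P, Q, hQ, rfl, hR⟩ := exists_rep hf (Two F v) kap_mem_Two hf'
  have hθ : 1 + θ ≠ 0 := by
    rcases hK with ⟨rfl, -⟩ | ⟨rfl, -, -⟩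
    · rw [add_zero]
      exact one_ne_zero
    · rw [one_add_one_eq_two]
      exact two_ne_zero
  exact ⟨lower_M hn hK hθ hQ hR, lower_U hn hK hθ hQ hR, lower_P hn hK hθ hQ hR⟩

theorem reach_two (v : Fin n → Fin n → σ) : ∃ T', ReachLe (Given F σ) (2 * n ^ 2 + n) T' ∧
    (gm F v).trace ∈ T' ∧ (gm F v * gm F v).trace ∈ T' := by
  have h0 : (0 : Rt F σ) ∈ Given F σ := Or.inl ⟨0, map_zero _⟩
  obtain ⟨T1, r1, h1⟩ := reachLe_of_cost (Cost.sum_mul (T := Given F σ) h0
    (ι := Fin n × Fin n) (fun t => gm F v t.1 t.2) (fun t => gm F v t.2 t.1)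
    (fun t => Or.inr ⟨_, rfl⟩) (fun t => Or.inr ⟨_, rfl⟩))
  obtain ⟨T2, r2, h2⟩ := reachLe_of_cost (Cost.sum (T := T1) (r1.subset h0)
    (Finset.univ : Finset (Fin n)) (fun i => gm F v i i)
    (fun i _ => r1.subset (Or.inr ⟨_, rfl⟩)))
  refine ⟨T2, (r1.trans r2).mono ?_, h2 rfl, r2.subset (h1 ?_)⟩
  · rw [Fintype.card_prod, Finset.card_univ, Fintype.card_fin, pow_two]
  · rw [Set.mem_singleton_iff, Matrix.trace, Fintype.sum_prod_type]
    rfl

end

end Pool.Agent.Q225.Sim
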