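import Pool.Agent.Q225.Sim.Low

set_option autoImplicit false
set_option linter.unusedSectionVars false

/-!
# Diagonal matrices in general position
-/

namespace Pool.Agent.Q225.Sim

open Polynomial

section

variable {F : Type} [Field F] {n : ℕ}

/-- the coefficients of the characteristic polynomial of the diagonal matrix -/
noncomputable def kx {R : Type} [CommRing R] (x : Fin n → R) (r : Fin n) : R :=
  (∏ l, (X - C (x l))).coeff r

theorem kx_eq (x : Fin n → F) (r : Fin n) : kx x r = (qp x ∅).coeff r := by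
  rw [kx, qp, Finset.compl_empty]

/-- the polynomials `qp` for the generic diagonal matrix -/
noncomputable def qg (F : Type) [Field F] {n : ℕ} (s : Finset (Fin n)) :
    (MvPolynomial (Fin n) F)[X] := ∏ l ∈ sᶜ, (X - C (MvPolynomial.X l))

theorem qg_map (x : Fin n → F) (s : Finset (Fin n)) :
    (qg F s).map (MvPolynomial.eval x) = qp x s := by
  simp only [qg, qp, Polynomial.map_prod, Polynomial.map_sub, Polynomial.map_X,
    Polynomial.map_C, MvPolynomial.eval_X]

theorem qg_eval (x : Fin n → F) (s : Finset (Fin n)) (r : ℕ) :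
    MvPolynomial.eval x ((qg F s).coeff r) = (qp x s).coeff r := by
  rw [← qg_map, Polynomial.coeff_map]

theorem kx_generic (x : Fin n → F) (P : MvPolynomial (Fin n) F) :
    MvPolynomial.eval x (MvPolynomial.aeval (fun r : Fin n => (qg F (∅ : Finset (Fin n))).coeff r) P) =
      MvPolynomial.eval (kx x) P := by
  rw [MvPolynomial.aeval_def, MvPolynomial.algebraMap_eq, MvPolynomial.eval₂_comp_left
    (MvPolynomial.eval x)]
  have h1 : (MvPolynomial.eval x).comp MvPolynomial.C = RingHom.id F := by
    ext a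
    simp
  rw [h1, MvPolynomial.eval₂_id]
  congr 2
  funext r
  rw [Function.comp_apply, qg_eval, kx_eq]

/-- every polynomial is the characteristic polynomial of a diagonal matrix -/
theorem exists_diag {K : Type} [Field K] [IsAlgClosed K] (b : Fin n → K) :
    ∃ y : Fin n → K, kx y = b := by
  set p : K[X] := X ^ n + ∑ r : Fin n, C (b r) * X ^ (r : ℕ) with hp
  have hlow : (∑ r : Fin n, C (b r) * X ^ (r : ℕ) : K[X]).degree < n :=
    Polynomial.degree_sum_fin_lt b
  have hmon : p.Monic := Polynomial.monic_X_pow_add hlow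
  have hdeg : p.natDegree = n := by
    rw [hp, Polynomial.natDegree_add_eq_left_of_degree_lt]
    · simp
    · rw [Polynomial.degree_X_pow]
      exact hlow
  have hsp := IsAlgClosed.splits p
  have hcard : p.roots.card = n := by
    rw [← hsp.natDegree_eq_card_roots, hdeg]
  have hprod : (p.roots.map fun a => X - C a).prod = p :=
    (hsp.eq_prod_roots_of_monic hmon).symm
  obtain ⟨l, hl⟩ := Quot.exists_rep p.roots
  have hll : l.length = n := by
    have : (Multiset.card (↑l : Multiset K)) = n := by
      rw [← hcard]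
      exact congrArg _ hl
    simpa using this
  subst hll
  refine ⟨fun i => l.get i, funext fun r => ?_⟩
  have h1 : (∏ i : Fin l.length, (X - C (l.get i)) : K[X]) = p := by
    rw [← hprod, ← hl]
    have : ∏ i : Fin l.length, (X - C (l.get i)) = (l.map fun a => (X - C a : K[X])).prod := by
      rw [← List.prod_ofFn]
      congr 1
      rw [← List.ofFn_get (l.map fun a => (X - C a : K[X]))]
      simp
    rw [this]
    rfl
  rw [kx, h1, hp, Polynomial.coeff_add, Polynomial.coeff_X_pow, if_neg (ne_of_lt r.2), zero_add,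
    Polynomial.finsetSum_coeff]
  rw [Finset.sum_eq_single r]
  · simp
  · intro s _ hs
    rw [Polynomial.coeff_C_mul_X_pow, if_neg]
    exact fun h => hs (Fin.ext h.symm)
  · simp

/-- the coefficients are algebraically independent -/
theorem dominant [Infinite F] (P : MvPolynomial (Fin n) F)
    (h : ∀ x : Fin n → F, MvPolynomial.eval (kx x) P = 0) : P = 0 := by
  have h1 : MvPolynomial.aeval (fun r : Fin n => (qg F (∅ : Finset (Fin n))).coeff r) P = 0 := by
    refine MvPolynomial.funext fun x => ?_
    rw [kx_generic, h, map_zero]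
  let K := AlgebraicClosure F
  have h2 : MvPolynomial.map (algebraMap F K) P = 0 := by
    refine MvPolynomial.funext fun b => ?_
    rw [map_zero]
    obtain ⟨y, rfl⟩ := exists_diag b
    have h3 := congrArg (MvPolynomial.aeval y : MvPolynomial (Fin n) F →ₐ[F] K) h1
    rw [map_zero] at h3
    rw [← h3, MvPolynomial.eval_map]
    have h4 : (MvPolynomial.aeval y : MvPolynomial (Fin n) F →ₐ[F] K)
        (MvPolynomial.aeval (fun r : Fin n => (qg F (∅ : Finset (Fin n))).coeff r) P) =
        MvPolynomial.aeval (fun r : Fin n => MvPolynomial.aeval y ((qg F (∅ : Finset (Fin n))).coeff (r : ℕ))) P := by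
      have := MvPolynomial.comp_aeval (fun r : Fin n => (qg F (∅ : Finset (Fin n))).coeff r)
        (MvPolynomial.aeval y : MvPolynomial (Fin n) F →ₐ[F] K)
      exact congrFun (congrArg DFunLike.coe this) P
    rw [h4, MvPolynomial.aeval_def]
    congr 1
    funext r
    have h5 : (qg F (∅ : Finset (Fin n))).map
        (MvPolynomial.aeval y : MvPolynomial (Fin n) F →ₐ[F] K).toRingHom =
        ∏ l, (X - C (y l)) := by
      simp only [qg, Polynomial.map_prod, Polynomial.map_sub, Polynomial.map_X,
        Polynomial.map_C, Finset.compl_empty]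
      simp
    rw [kx, ← h5, Polynomial.coeff_map]
    rfl
  exact MvPolynomial.map_injective _ (algebraMap F K).injective (h2.trans (map_zero _).symm)

end

section perm

variable {n : ℕ}

/-- a permutation with prescribed values at four points -/
theorem exists_perm {k : ℕ} (f g : Fin k → Fin n) (hf : Function.Injective f)
    (hg : Function.Injective g) : ∃ π : Equiv.Perm (Fin n), ∀ i, π (f i) = g i := by
  classical
  let e : {x // x ∈ Set.range f} ≃ {x // x ∈ Set.range g} :=
    (Equiv.ofInjective f hf).symm.trans (Equiv.ofInjective g hg)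
  refine ⟨e.extendSubtype, fun i => ?_⟩
  rw [Equiv.extendSubtype_apply_of_mem e (f i) ⟨i, rfl⟩]
  show ((Equiv.ofInjective g hg) ((Equiv.ofInjective f hf).symm ⟨f i, ⟨i, rfl⟩⟩) : Fin n) = g i
  have : (Equiv.ofInjective f hf).symm ⟨f i, ⟨i, rfl⟩⟩ = i := by
    rw [Equiv.symm_apply_eq]
    rfl
  rw [this]
  rfl

variable {F : Type} [Field F]

theorem qp_perm (x : Fin n → F) (π : Equiv.Perm (Fin n)) (s : Finset (Fin n)) :
    qp (x ∘ π) s = qp x (s.map π.toEmbedding) := by
  unfold qp
  refine Finset.prod_nbij' π π.symm ?_ ?_ ?_ ?_ ?_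
  · intro l hl
    simp only [Finset.mem_compl, Finset.mem_map_equiv] at hl ⊢
    simpa using hl
  · intro l hl
    simp only [Finset.mem_compl, Finset.mem_map_equiv] at hl ⊢
    exact hl
  · intro l _
    simp
  · intro l _
    simp
  · intro l _
    rfl

theorem kx_perm (x : Fin n → F) (π : Equiv.Perm (Fin n)) : kx (x ∘ π) = kx x := by
  funext r
  rw [kx_eq, kx_eq, qp_perm, Finset.map_empty]

/-- the functional given by polynomials in the coefficients -/
noncomputable def LR (R : Fin n → MvPolynomial (Fin n) F) (x : Fin n → F) : F[X] →ₗ[F] F :=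
  ∑ r, MvPolynomial.eval (kx x) (R r) • Polynomial.lcoeff F (r : ℕ)

theorem LR_apply (R : Fin n → MvPolynomial (Fin n) F) (x : Fin n → F) (p : F[X]) :
    LR R x p = ∑ r, MvPolynomial.eval (kx x) (R r) * p.coeff (r : ℕ) := by
  rw [LR, LinearMap.sum_apply]
  rfl

theorem mu_perm (R : Fin n → MvPolynomial (Fin n) F) (x : Fin n → F) (π : Equiv.Perm (Fin n))
    (s : Finset (Fin n)) : mu (LR R (x ∘ π)) (x ∘ π) s = mu (LR R x) x (s.map π.toEmbedding) := by
  rw [mu, mu, qp_perm, LR_apply, LR_apply, kx_perm]

/-- polynomials of small degree are combinations of the polynomials `qp x {i, j, k}` -/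
theorem lagrange {x : Fin n → F} (hx : Function.Injective x) (L : F[X] →ₗ[F] F) {i j : Fin n}
    (hij : i ≠ j) (h : ∀ k, k ≠ i → k ≠ j → mu L x {i, j, k} = 0) {r : ℕ} (hr : r + 3 ≤ n) :
    L (X ^ r) = 0 := by
  classical
  set s : Finset (Fin n) := {i, j}ᶜ with hs
  have hcard : s.card = n - 2 := by
    rw [hs, Finset.card_compl, Fintype.card_fin, Finset.card_pair hij]
  have h1 := Lagrange.eq_interpolate (s := s) (v := x) (f := (X ^ r : F[X])) hx.injOn (by
    rw [Polynomial.degree_X_pow, hcard]
    exact_mod_cast (by omega : r < n - 2))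
  rw [h1, Lagrange.interpolate_apply, map_sum]
  refine Finset.sum_eq_zero fun k hk => ?_
  have hk' : k ≠ i ∧ k ≠ j := by
    rw [hs] at hk
    simp only [Finset.mem_compl, Finset.mem_insert, Finset.mem_singleton, not_or] at hk
    exact hk
  have h2 : Lagrange.basis s x k = C (∏ l ∈ s.erase k, (x k - x l)⁻¹) * qp x {i, j, k} := by
    rw [Lagrange.basis, qp, map_prod]
    have e : ({i, j, k} : Finset (Fin n))ᶜ = s.erase k := by
      ext l
      simp only [hs, Finset.mem_compl, Finset.mem_insert, Finset.mem_singleton,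
        Finset.mem_erase, not_or]
      tauto
    rw [e, ← Finset.prod_mul_distrib]
    rfl
  rw [h2, ← mul_assoc, ← C_mul, ← Polynomial.smul_eq_C_mul, map_smul]
  have h3 := h k hk'.1 hk'.2
  rw [mu] at h3
  rw [h3, smul_zero]

/-- the difference of two weights as a polynomial in the diagonal entries -/
noncomputable def Wp (R : Fin n → MvPolynomial (Fin n) F) (s s' : Finset (Fin n)) :
    MvPolynomial (Fin n) F :=
  ∑ r : Fin n, MvPolynomial.aeval (fun r : Fin n => (qg F (∅ : Finset (Fin n))).coeff r) (R r) *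
    ((qg F s).coeff (r : ℕ) - (qg F s').coeff (r : ℕ))

theorem Wp_eval (R : Fin n → MvPolynomial (Fin n) F) (s s' : Finset (Fin n)) (x : Fin n → F) :
    MvPolynomial.eval x (Wp R s s') = mu (LR R x) x s - mu (LR R x) x s' := by
  rw [Wp, map_sum, mu, mu, LR_apply, LR_apply, ← Finset.sum_sub_distrib]
  refine Finset.sum_congr rfl fun r _ => ?_
  rw [map_mul, map_sub, kx_generic, qg_eval, qg_eval]
  ring

theorem Wp_ne_zero [Infinite F] (hn : 5 ≤ n) {R : Fin n → MvPolynomial (Fin n) F}
    (hR : ∃ r : Fin n, (r : ℕ) + 3 ≤ n ∧ R r ≠ 0) (a : Fin 4 → Fin n)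
    (ha : Function.Injective a) : Wp R {a 0, a 1} {a 2, a 3} ≠ 0 := by
  classical
  intro h0
  obtain ⟨r, hr, hRr⟩ := hR
  -- all quadruples
  have hall : ∀ (b : Fin 4 → Fin n), Function.Injective b → ∀ x : Fin n → F,
      mu (LR R x) x {b 0, b 1} = mu (LR R x) x {b 2, b 3} := by
    intro b hb x
    obtain ⟨π, hπ⟩ := exists_perm a b ha hb
    have h1 := Wp_eval R {a 0, a 1} {a 2, a 3} (x ∘ π)
    rw [h0, map_zero, mu_perm, mu_perm] at h1
    have e : ∀ i j, (({a i, a j} : Finset (Fin n)).map π.toEmbedding) = {b i, b j} := by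
      intro i j
      rw [Finset.map_insert, Finset.map_singleton]
      simp only [Equiv.coe_toEmbedding, hπ]
    rw [e, e] at h1
    exact (sub_eq_zero.1 h1.symm)
  -- all triples
  have htri : ∀ x : Fin n → F, Function.Injective x → ∀ q p t : Fin n, q ≠ p → q ≠ t → p ≠ t →
      mu (LR R x) x {q, p, t} = 0 := by
    intro x hx q p t h1 h2 h3
    obtain ⟨u, w, huw, hu, hw⟩ : ∃ u w : Fin n, u ≠ w ∧ u ∉ ({q, p, t} : Finset (Fin n)) ∧
        w ∉ ({q, p, t} : Finset (Fin n)) := by
      have hc : 2 ≤ (({q, p, t} : Finset (Fin n))ᶜ).card := by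
        rw [Finset.card_compl, Fintype.card_fin]
        have := Finset.card_le_three (a := q) (b := p) (c := t)
        omega
      obtain ⟨u, hu, w, hw, huw⟩ := Finset.one_lt_card.1
        (show 1 < (({q, p, t} : Finset (Fin n))ᶜ).card by omega)
      exact ⟨u, w, huw, Finset.mem_compl.1 hu, Finset.mem_compl.1 hw⟩
    simp only [Finset.mem_insert, Finset.mem_singleton, not_or] at hu hw
    have e1 := hall ![q, p, u, w] (by
      intro i j hij
      fin_cases i <;> fin_cases j <;> simp_all [eq_comm]) x
    have e2 := hall ![p, t, u, w] (by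
      intro i j hij
      fin_cases i <;> fin_cases j <;> simp_all [eq_comm]) x
    have e3 := mu_triple (LR R x) x h1 h2 h3
    simp only [Matrix.cons_val_zero, Matrix.cons_val_one, Matrix.cons_val] at e1 e2
    rw [e1, e2, sub_self] at e3
    have h4 : x q - x t ≠ 0 := sub_ne_zero.2 fun h => h2 (hx h)
    exact (mul_eq_zero.1 e3.symm).resolve_left h4
  -- the coefficient
  have hval : ∀ x : Fin n → F, Function.Injective x → MvPolynomial.eval (kx x) (R r) = 0 := by
    intro x hx
    have h1 := lagrange hx (LR R x) (i := ⟨0, by omega⟩) (j := ⟨1, by omega⟩) (by simp)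
      (fun k hk1 hk2 => htri x hx _ _ _ (by simp) hk1.symm hk2.symm) hr
    rw [LR_apply] at h1
    rw [← h1, Finset.sum_eq_single r]
    · simp
    · intro s _ hs
      rw [Polynomial.coeff_X_pow, if_neg, mul_zero]
      exact fun h => hs (Fin.ext h)
    · simp
  -- density of the injective points
  set V : MvPolynomial (Fin n) F := ∏ p : Fin n × Fin n, if p.1 = p.2 then 1 else
    (MvPolynomial.X p.1 - MvPolynomial.X p.2) with hV
  have hV0 : V ≠ 0 := by
    rw [hV]
    refine Finset.prod_ne_zero_iff.2 fun p _ => ?_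
    split_ifs with hp
    · exact one_ne_zero
    · rw [sub_ne_zero]
      exact fun h => hp (MvPolynomial.X_injective h)
  have hVx : ∀ x : Fin n → F, MvPolynomial.eval x V ≠ 0 → Function.Injective x := by
    intro x hx i j hij
    by_contra hne
    apply hx
    rw [hV, map_prod]
    refine Finset.prod_eq_zero (Finset.mem_univ (i, j)) ?_
    rw [if_neg hne, map_sub, MvPolynomial.eval_X, MvPolynomial.eval_X, hij, sub_self]
  have hprod : V * MvPolynomial.aeval
      (fun r : Fin n => (qg F (∅ : Finset (Fin n))).coeff r) (R r) = 0 := by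
    refine MvPolynomial.funext fun x => ?_
    rw [map_mul, map_zero, kx_generic]
    by_cases hx : MvPolynomial.eval x V = 0
    · rw [hx, zero_mul]
    · rw [hval x (hVx x hx), mul_zero]
  refine hRr (dominant _ fun x => ?_)
  rw [← kx_generic, (mul_eq_zero.1 hprod).resolve_left hV0, map_zero]

/-- **Diagonal matrices in general position.** -/
theorem exists_good [Infinite F] (hn : 5 ≤ n) {Q : MvPolynomial (Fin n) F} (hQ : Q ≠ 0)
    {R : Fin n → MvPolynomial (Fin n) F} (hR : ∃ r : Fin n, (r : ℕ) + 3 ≤ n ∧ R r ≠ 0) :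
    ∃ x : Fin n → F, Function.Injective x ∧ MvPolynomial.eval (kx x) Q ≠ 0 ∧
      ∀ a : Fin 4 → Fin n, Function.Injective a →
        mu (LR R x) x {a 0, a 1} ≠ mu (LR R x) x {a 2, a 3} := by
  classical
  set V : MvPolynomial (Fin n) F := ∏ p : Fin n × Fin n, if p.1 = p.2 then 1 else
    (MvPolynomial.X p.1 - MvPolynomial.X p.2) with hV
  have hV0 : V ≠ 0 := by
    rw [hV]
    refine Finset.prod_ne_zero_iff.2 fun p _ => ?_
    split_ifs with hp
    · exact one_ne_zero
    · rw [sub_ne_zero]
      exact fun h => hp (MvPolynomial.X_injective h)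
  set W : MvPolynomial (Fin n) F := ∏ a : Fin 4 → Fin n, if Function.Injective a then
    Wp R {a 0, a 1} {a 2, a 3} else 1 with hW
  have hW0 : W ≠ 0 := by
    rw [hW]
    refine Finset.prod_ne_zero_iff.2 fun a _ => ?_
    split_ifs with ha
    · exact Wp_ne_zero hn hR a ha
    · exact one_ne_zero
  set Q' := MvPolynomial.aeval (fun r : Fin n => (qg F (∅ : Finset (Fin n))).coeff r) Q with hQ'
  have hQ0 : Q' ≠ 0 := by
    intro h
    refine hQ (dominant _ fun x => ?_)
    rw [← kx_generic, ← hQ', h, map_zero]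
  obtain ⟨x, hx⟩ : ∃ x, MvPolynomial.eval x (V * W * Q') ≠ 0 := by
    by_contra hcon
    push Not at hcon
    exact mul_ne_zero (mul_ne_zero hV0 hW0) hQ0 (MvPolynomial.funext fun x => by
      rw [hcon x, map_zero])
  rw [map_mul, map_mul] at hx
  have h1 := left_ne_zero_of_mul (left_ne_zero_of_mul hx)
  have h2 := right_ne_zero_of_mul (left_ne_zero_of_mul hx)
  have h3 := right_ne_zero_of_mul hx
  refine ⟨x, fun i j hij => ?_, by rwa [hQ', kx_generic] at h3, fun a ha h => ?_⟩
  · by_contra hne
    apply h1
    rw [hV, map_prod]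
    refine Finset.prod_eq_zero (Finset.mem_univ (i, j)) ?_
    rw [if_neg hne, map_sub, MvPolynomial.eval_X, MvPolynomial.eval_X, hij, sub_self]
  · apply h2
    rw [hW, map_prod]
    refine Finset.prod_eq_zero (Finset.mem_univ a) ?_
    rw [if_pos ha, Wp_eval, h, sub_self]

end perm

end Pool.Agent.Q225.Sim
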