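import Pool.Agent.Q225.Dich.Open

set_option autoImplicit false
set_option linter.unusedSectionVars false

/-!
# Values of third derivatives at special points
-/

namespace Pool.Agent.Q225.Sim

open Matrix Pool.Agent.Q225.Add Pool.Agent.Q225.Dich Pool.Agent.W956.KF Pool.Agent.H53R3

section

variable {F σ : Type} [Field F] {c : σ → F}

theorem vl_const (c : σ → F) (x : F) : Vl c (algebraMap F (Rt F σ) x) x :=
  ⟨algebraMap F (Sc c) x, AlgHom.commutes _ _, AlgHom.commutes _ _⟩

theorem vl_zero (c : σ → F) : Vl c (0 : Rt F σ) 0 := ⟨0, map_zero _, map_zero _⟩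

theorem vl_one (c : σ → F) : Vl c (1 : Rt F σ) 1 := ⟨1, map_one _, map_one _⟩

theorem vl_neg {f : Rt F σ} {v : F} (h : Vl c f v) : Vl c (-f) (-v) := by
  obtain ⟨s, rfl, rfl⟩ := h
  exact ⟨-s, map_neg _ _, map_neg _ _⟩

theorem vl_sub {f g : Rt F σ} {v w : F} (h : Vl c f v) (h' : Vl c g w) :
    Vl c (f - g) (v - w) := by
  obtain ⟨s, rfl, rfl⟩ := h
  obtain ⟨t, rfl, rfl⟩ := h'
  exact ⟨s - t, map_sub _ _ _, map_sub _ _ _⟩

theorem vl_sum {ι : Type} (s : Finset ι) {f : ι → Rt F σ} {v : ι → F}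
    (h : ∀ i ∈ s, Vl c (f i) (v i)) : Vl c (∑ i ∈ s, f i) (∑ i ∈ s, v i) := by
  classical
  induction s using Finset.induction_on with
  | empty => simpa using vl_zero c
  | insert a s ha ih =>
    rw [Finset.sum_insert ha, Finset.sum_insert ha]
    exact (h a (Finset.mem_insert_self _ _)).add
      (ih fun i hi => h i (Finset.mem_insert_of_mem hi))

theorem vl_inv {f : Rt F σ} {v : F} (h : Vl c f v) (hv : v ≠ 0) : Vl c f⁻¹ v⁻¹ := by
  obtain ⟨s, rfl, rfl⟩ := h
  obtain ⟨u, hu⟩ := pr_local c s (isUnit_iff_ne_zero.2 hv)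
  refine ⟨↑u⁻¹, ?_, ?_⟩
  · refine eq_inv_of_mul_eq_one_left ?_
    rw [← map_mul, ← hu, Units.inv_mul, map_one]
  · refine eq_inv_of_mul_eq_one_left ?_
    rw [← map_mul, ← hu, Units.inv_mul, map_one]

theorem vl_ne_zero {f : Rt F σ} {v : F} (h : Vl c f v) (hv : v ≠ 0) : f ≠ 0 := by
  rintro rfl
  exact hv (h.unique (vl_zero c))

theorem vl_pow {f : Rt F σ} {v : F} (h : Vl c f v) (n : ℕ) : Vl c (f ^ n) (v ^ n) := by
  obtain ⟨s, rfl, rfl⟩ := h
  exact ⟨s ^ n, map_pow _ _ _, map_pow _ _ _⟩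

/-- `f` has the value `v` and the third derivative `d` at `c`, the lower derivatives vanish -/
structure Jt (c : σ → F) (D : σ → Rt F σ → Rt F σ) (a b g : σ) (f : Rt F σ) (v d : F) : Prop where
  v0 : Vl c f v
  da : Vl c (D a f) 0
  db : Vl c (D b f) 0
  dg : Vl c (D g f) 0
  dab : Vl c (D a (D b f)) 0
  dag : Vl c (D a (D g f)) 0
  dbg : Vl c (D b (D g f)) 0
  dabg : Vl c (D a (D b (D g f))) d

variable {D : σ → Rt F σ → Rt F σ} (hD : ∀ x, IsDer (D x))
  (hc : ∀ x (c : F), D x (algebraMap F _ c) = 0) {a b g : σ}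

include hD

theorem Jt.congr {f : Rt F σ} {v d v' d' : F} (h : Jt c D a b g f v d) (hv : v = v')
    (hd : d = d') : Jt c D a b g f v' d' := by
  subst hv
  subst hd
  exact h

theorem Jt.add {f f' : Rt F σ} {v v' d d' : F} (h : Jt c D a b g f v d)
    (h' : Jt c D a b g f' v' d') : Jt c D a b g (f + f') (v + v') (d + d') where
  v0 := h.v0.add h'.v0
  da := by rw [(hD _).add]; simpa using h.da.add h'.da
  db := by rw [(hD _).add]; simpa using h.db.add h'.db
  dg := by rw [(hD _).add]; simpa using h.dg.add h'.dg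
  dab := by rw [(hD b).add, (hD a).add]; simpa using h.dab.add h'.dab
  dag := by rw [(hD g).add, (hD a).add]; simpa using h.dag.add h'.dag
  dbg := by rw [(hD g).add, (hD b).add]; simpa using h.dbg.add h'.dbg
  dabg := by rw [(hD g).add, (hD b).add, (hD a).add]; exact h.dabg.add h'.dabg

theorem Jt.mul {f f' : Rt F σ} {v v' d d' : F} (h : Jt c D a b g f v d)
    (h' : Jt c D a b g f' v' d') : Jt c D a b g (f * f') (v * v') (d * v' + v * d') where
  v0 := h.v0.mul h'.v0
  da := by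
    rw [(hD _).mul]
    simpa using (h.da.mul h'.v0).add (h.v0.mul h'.da)
  db := by
    rw [(hD _).mul]
    simpa using (h.db.mul h'.v0).add (h.v0.mul h'.db)
  dg := by
    rw [(hD _).mul]
    simpa using (h.dg.mul h'.v0).add (h.v0.mul h'.dg)
  dab := by
    rw [(hD b).mul, (hD a).add, (hD a).mul, (hD a).mul]
    simpa using ((h.dab.mul h'.v0).add (h.db.mul h'.da)).add
      ((h.da.mul h'.db).add (h.v0.mul h'.dab))
  dag := by
    rw [(hD g).mul, (hD a).add, (hD a).mul, (hD a).mul]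
    simpa using ((h.dag.mul h'.v0).add (h.dg.mul h'.da)).add
      ((h.da.mul h'.dg).add (h.v0.mul h'.dag))
  dbg := by
    rw [(hD g).mul, (hD b).add, (hD b).mul, (hD b).mul]
    simpa using ((h.dbg.mul h'.v0).add (h.dg.mul h'.db)).add
      ((h.db.mul h'.dg).add (h.v0.mul h'.dbg))
  dabg := by
    rw [(hD g).mul, (hD b).add, (hD b).mul, (hD b).mul, (hD a).add, (hD a).add, (hD a).add,
      (hD a).mul, (hD a).mul, (hD a).mul, (hD a).mul]
    simpa using (((h.dabg.mul h'.v0).add (h.dbg.mul h'.da)).add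
      ((h.dag.mul h'.db).add (h.dg.mul h'.dab))).add
      (((h.dab.mul h'.dg).add (h.db.mul h'.dag)).add
      ((h.da.mul h'.dbg).add (h.v0.mul h'.dabg)))

include hc

theorem jt_const (x : F) : Jt c D a b g (algebraMap F (Rt F σ) x) x 0 where
  v0 := vl_const c x
  da := by rw [hc]; exact vl_zero c
  db := by rw [hc]; exact vl_zero c
  dg := by rw [hc]; exact vl_zero c
  dab := by rw [hc, (hD a).zero]; exact vl_zero c
  dag := by rw [hc, (hD a).zero]; exact vl_zero c
  dbg := by rw [hc, (hD b).zero]; exact vl_zero c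
  dabg := by rw [hc, (hD b).zero, (hD a).zero]; exact vl_zero c

theorem Jt.smul {f : Rt F σ} {v d : F} (x : F) (h : Jt c D a b g f v d) :
    Jt c D a b g (x • f) (x * v) (x * d) := by
  have := (jt_const hD hc (c := c) (a := a) (b := b) (g := g) x).mul hD h
  rw [Algebra.smul_def]
  simpa using this

theorem jt_sum {ι : Type} (s : Finset ι) {f : ι → Rt F σ} {v d : ι → F}
    (h : ∀ i ∈ s, Jt c D a b g (f i) (v i) (d i)) :
    Jt c D a b g (∑ i ∈ s, f i) (∑ i ∈ s, v i) (∑ i ∈ s, d i) := by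
  classical
  induction s using Finset.induction_on with
  | empty => simpa using jt_const hD hc (c := c) (a := a) (b := b) (g := g) 0
  | insert i s hi ih =>
    rw [Finset.sum_insert hi, Finset.sum_insert hi, Finset.sum_insert hi]
    exact (h i (Finset.mem_insert_self _ _)).add hD
      (ih fun j hj => h j (Finset.mem_insert_of_mem hj))

omit hc in
theorem Jt.inv {f : Rt F σ} {v d : F} (h : Jt c D a b g f v d) (hv : v ≠ 0) :
    Jt c D a b g f⁻¹ v⁻¹ (-(d / v ^ 2)) := by
  have hf : f ≠ 0 := vl_ne_zero h.v0 hv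
  have hi := vl_inv h.v0 hv
  have e1 : ∀ x, D x f⁻¹ = -(f⁻¹ * f⁻¹ * D x f) := fun x => by
    rw [der_inv (hD x) hf]
    field_simp
  have e2 : ∀ x y, D x (D y f⁻¹) = 2 * (f⁻¹ * f⁻¹ * f⁻¹ * D x f * D y f) -
      f⁻¹ * f⁻¹ * D x (D y f) := fun x y => by
    rw [e1 y, (hD x).neg, (hD x).mul, (hD x).mul, e1 x]
    ring
  have e3 : ∀ x y z, D x (D y (D z f⁻¹)) = -(f⁻¹ * f⁻¹ * D x (D y (D z f))) +
      (2 * (f⁻¹ * f⁻¹ * f⁻¹) * (D x f * D y (D z f) + D y f * D x (D z f) +
        D z f * D x (D y f)) - 6 * (f⁻¹ * f⁻¹ * f⁻¹ * f⁻¹) * D x f * D y f * D z f) := by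
    intro x y z
    have h2 : D x 2 = 0 := by
      have := (hD x).add 1 1
      rw [(hD x).one, add_zero, one_add_one_eq_two] at this
      exact this
    rw [e2 y z, (hD x).sub]
    simp only [(hD x).mul, e1 x, h2]
    ring
  have w2 : Vl c (2 : Rt F σ) 2 := ⟨2, map_ofNat _ _, map_ofNat _ _⟩
  have w6 : Vl c (6 : Rt F σ) 6 := ⟨6, map_ofNat _ _, map_ofNat _ _⟩
  refine ⟨hi, ?_, ?_, ?_, ?_, ?_, ?_, ?_⟩
  · rw [e1]; simpa using vl_neg ((hi.mul hi).mul h.da)
  · rw [e1]; simpa using vl_neg ((hi.mul hi).mul h.db)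
  · rw [e1]; simpa using vl_neg ((hi.mul hi).mul h.dg)
  · rw [e2]
    simpa using vl_sub (w2.mul ((((hi.mul hi).mul hi).mul h.da).mul h.db))
      ((hi.mul hi).mul h.dab)
  · rw [e2]
    simpa using vl_sub (w2.mul ((((hi.mul hi).mul hi).mul h.da).mul h.dg))
      ((hi.mul hi).mul h.dag)
  · rw [e2]
    simpa using vl_sub (w2.mul ((((hi.mul hi).mul hi).mul h.db).mul h.dg))
      ((hi.mul hi).mul h.dbg)
  · rw [e3]
    have := (vl_neg ((hi.mul hi).mul h.dabg)).add (vl_sub
      ((w2.mul ((hi.mul hi).mul hi)).mul (((h.da.mul h.dbg).add (h.db.mul h.dag)).add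
        (h.dg.mul h.dab)))
      ((((w6.mul (((hi.mul hi).mul hi).mul hi)).mul h.da).mul h.db).mul h.dg))
    simp only [mul_zero, add_zero, sub_zero] at this
    convert this using 1
    field_simp

theorem Jt.div {f f' : Rt F σ} {v v' d d' : F} (h : Jt c D a b g f v d)
    (h' : Jt c D a b g f' v' d') (hv : v' ≠ 0) :
    Jt c D a b g (f / f') (v / v') ((d * v' - v * d') / v' ^ 2) := by
  rw [div_eq_mul_inv]
  refine (h.mul hD (h'.inv hD hv)).congr hD (div_eq_mul_inv _ _).symm ?_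
  field_simp
  ring

/-- polynomials -/
theorem jt_aeval {r : Type} [Fintype r] [DecidableEq r] {κ : r → Rt F σ} {k d : r → F}
    (h : ∀ i, Jt c D a b g (κ i) (k i) (d i)) (P : MvPolynomial r F) :
    Jt c D a b g (MvPolynomial.aeval κ P) (MvPolynomial.aeval k P)
      (∑ i, MvPolynomial.aeval k (MvPolynomial.pderiv i P) * d i) := by
  induction P using MvPolynomial.induction_on with
  | C x =>
    simp only [MvPolynomial.pderiv_C, map_zero, zero_mul, Finset.sum_const_zero]
    have := jt_const hD hc (c := c) (a := a) (b := b) (g := g) x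
    simpa using this
  | add P Q hP hQ =>
    simp only [map_add, add_mul, Finset.sum_add_distrib]
    exact hP.add hD hQ
  | mul_X P i hP =>
    have := hP.mul hD (h i)
    simp only [map_mul, MvPolynomial.aeval_X] at this ⊢
    refine this.congr hD rfl ?_
    simp only [Derivation.leibniz, MvPolynomial.pderiv_X, smul_eq_mul, map_add, map_mul,
      MvPolynomial.aeval_X, add_mul, Finset.sum_add_distrib]
    rw [Finset.sum_mul, add_comm]
    congr 1
    · rw [Finset.sum_eq_single i]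
      · simp
      · intro j _ hj
        simp [hj]
      · simp
    · exact Finset.sum_congr rfl fun j _ => by ring

end

end Pool.Agent.Q225.Sim
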