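import Pool.Agent.Q225.Sim.Gen

set_option autoImplicit false
set_option linter.unusedSectionVars false

/-!
# Lower bounds for similarity invariants
-/

namespace Pool.Agent.Q225.Sim

open Matrix Pool.Agent.Q225.Add Pool.Agent.Q225.Dich Pool.Agent.W956.KF Pool.Agent.H53R3
  Polynomial Pool.Agent.Q225.Ver

section

variable {F σ : Type} [Field F] {n : ℕ}

theorem exists_point {v : Fin n → Fin n → σ} (hP : Pat v) (x : Fin n → F) :
    ∃ c : σ → F, ∀ i j, c (v i j) = if i = j then x i else 0 := by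
  classical
  refine ⟨fun w => if h : ∃ i, v i i = w then x h.choose else 0, fun i j => ?_⟩
  by_cases hij : i = j
  · subst hij
    have h : ∃ i', v i' i' = v i i := ⟨i, rfl⟩
    beta_reduce
    rw [dif_pos h, if_pos rfl]
    have h1 := h.choose_spec
    rcases hP _ _ _ _ h1 with ⟨h2, -⟩ | ⟨h2, -⟩ <;> rw [h2]
  · have h : ¬ ∃ i', v i' i' = v i j := by
      rintro ⟨i', h⟩
      rcases hP _ _ _ _ h with ⟨h1, h2⟩ | ⟨h1, h2⟩
      · exact hij (h1.symm.trans h2)
      · exact hij (h2.symm.trans h1)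
    beta_reduce
    rw [dif_neg h, if_neg hij]

variable [Infinite F] [DecidableEq σ] {v : Fin n → Fin n → σ}
  {D : σ → Rt F σ → Rt F σ} (hD : ∀ x, IsDer (D x))
  (hc : ∀ x (c : F), D x (algebraMap F _ c) = 0)
  (hv : ∀ x j, D x (gz F σ j) = if j = x then 1 else 0)

/-- the numerators of the partial derivatives -/
noncomputable def Rn (P Q : MvPolynomial (Fin n) F) (r : Fin n) : MvPolynomial (Fin n) F :=
  MvPolynomial.pderiv r P * Q - P * MvPolynomial.pderiv r Q

/-- the invariant `P / Q` -/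
noncomputable def inva (v : Fin n → Fin n → σ) (P Q : MvPolynomial (Fin n) F) : Rt F σ :=
  MvPolynomial.aeval (fun r : Fin n => kap F v r) P /
    MvPolynomial.aeval (fun r : Fin n => kap F v r) Q

include hD hc hv in
theorem value_inva {θ : F} (hK : Kd v θ) {c : σ → F} {x : Fin n → F}
    (hcx : ∀ i j, c (v i j) = if i = j then x i else 0) {P Q : MvPolynomial (Fin n) F}
    (hQ : MvPolynomial.eval (kx x) Q ≠ 0)
    (i j j' k k' i' : Fin n) (h1 : i ≠ j) (h2 : i ≠ j') (h3 : i ≠ k) (h4 : i ≠ k')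
    (h5 : i' ≠ j) (h6 : i' ≠ j') (h7 : i' ≠ k) (h8 : i' ≠ k') (h9 : j ≠ k) (h10 : j ≠ k')
    (h11 : j' ≠ k) (h12 : j' ≠ k') :
    Vl c (D (v i j) (D (v j' k) (D (v k' i') (inva v P Q))))
      (if j = j' ∧ k = k' ∧ i = i' then
        -((1 + θ) / MvPolynomial.eval (kx x) Q ^ 2) * mu (LR (Rn P Q) x) x {i, j, k} else 0) := by
  classical
  have hk : ∀ r : Fin n, Jt c D (v i j) (v j' k) (v k' i') (kap F v r) (kx x r)
      (if j = j' ∧ k = k' ∧ i = i' then -((1 + θ) * (qp x {i, j, k}).coeff r) else 0) := by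
    intro r
    rw [kx_eq]
    exact jt_kap hD hc hv h1 h2 h3 h4 h5 h6 h7 h8 h9 h10 h11 h12 hK hcx r.2.le
  have hP' := jt_aeval hD hc hk P
  have hQ' := jt_aeval hD hc hk Q
  simp only [MvPolynomial.aeval_eq_eval] at hP' hQ'
  have := (hP'.div hD hc hQ' hQ).dabg
  unfold inva
  convert this using 1
  by_cases hm : j = j' ∧ k = k' ∧ i = i'
  · obtain ⟨rfl, rfl, rfl⟩ := hm
    simp only [and_self, if_true]
    rw [mu, LR_apply]
    have e : ∀ (A : MvPolynomial (Fin n) F), ∑ r : Fin n, (MvPolynomial.eval (kx x))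
        (MvPolynomial.pderiv r A) * -((1 + θ) * (qp x {i, j, k}).coeff (r : ℕ)) =
        -(1 + θ) * ∑ r : Fin n, (MvPolynomial.eval (kx x)) (MvPolynomial.pderiv r A) *
          (qp x {i, j, k}).coeff (r : ℕ) := by
      intro A
      rw [Finset.mul_sum]
      exact Finset.sum_congr rfl fun r _ => by ring
    have e' : ∑ r : Fin n, (MvPolynomial.eval (kx x)) (Rn P Q r) *
        (qp x {i, j, k}).coeff (r : ℕ) =
        (∑ r : Fin n, (MvPolynomial.eval (kx x)) (MvPolynomial.pderiv r P) *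
          (qp x {i, j, k}).coeff (r : ℕ)) * MvPolynomial.eval (kx x) Q -
        MvPolynomial.eval (kx x) P * ∑ r : Fin n, (MvPolynomial.eval (kx x))
          (MvPolynomial.pderiv r Q) * (qp x {i, j, k}).coeff (r : ℕ) := by
      rw [Finset.sum_mul, Finset.mul_sum, ← Finset.sum_sub_distrib]
      refine Finset.sum_congr rfl fun r _ => ?_
      rw [Rn, map_sub, map_mul, map_mul]
      ring
    have e1 := e P
    have e2 := e Q
    rw [e', e1, e2]
    ring
  · simp only [hm, if_false, mul_zero, Finset.sum_const_zero, zero_mul, sub_zero, zero_div]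

theorem inj_four {a b c d : Fin n} (h1 : a ≠ b) (h2 : a ≠ c) (h3 : a ≠ d) (h4 : b ≠ c)
    (h5 : b ≠ d) (h6 : c ≠ d) : Function.Injective ![a, b, c, d] := by
  intro p q hpq
  fin_cases p <;> fin_cases q <;> simp_all [eq_comm]

/-- disjoint groups of indices -/
theorem exists_groups {m : ℕ} (h : 5 * m ≤ n) : ∃ a : Fin 5 → Fin m → Fin n,
    ∀ p q i j, a p i = a q j → p = q ∧ i = j := by
  refine ⟨fun p i => ⟨p * m + i, ?_⟩, fun p q i j hij => ?_⟩
  · have hp := p.2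
    have hi := i.2
    have : (p : ℕ) * m ≤ 4 * m := Nat.mul_le_mul_right _ (by omega)
    omega
  · simp only [Fin.mk.injEq] at hij
    have hi := i.2
    have hj := j.2
    have h1 : (p : ℕ) = q := by
      rcases lt_trichotomy (p : ℕ) q with h1 | h1 | h1
      · exfalso
        have : ((p : ℕ) + 1) * m ≤ q * m := Nat.mul_le_mul_right _ h1
        rw [add_mul, one_mul] at this
        omega
      · exact h1
      · exfalso
        have : ((q : ℕ) + 1) * m ≤ p * m := Nat.mul_le_mul_right _ h1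
        rw [add_mul, one_mul] at this
        omega
    refine ⟨Fin.ext h1, Fin.ext ?_⟩
    rw [h1] at hij
    omega

/-- **The lower bound.** -/
theorem lower_core [Fintype σ] (hn : 5 ≤ n) {θ : F} (hK : Kd v θ) (hθ : 1 + θ ≠ 0)
    {P Q : MvPolynomial (Fin n) F} (hQ : Q ≠ 0)
    (hR : ∃ r : Fin n, (r : ℕ) + 3 ≤ n ∧ Rn P Q r ≠ 0) {r : ℕ}
    (hr : ∀ (D : σ → Rt F σ → Rt F σ), (∀ x, IsDer (D x)) →
      (∀ x (c : F), D x (algebraMap F _ c) = 0) →
      (∀ x j, D x (gz F σ j) = if j = x then 1 else 0) →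
      ∀ {m : ℕ} (α β γ : Fin m × Fin m → σ), (∀ i j, α i ≠ β j) → (∀ i l, α i ≠ γ l) →
        (∀ j l, β j ≠ γ l) →
        TensorRankLE (fun i j l => D (α i) (D (β j) (D (γ l) (inva v P Q)))) r) :
    ((n / 5 : ℕ) : ℝ) ^ Pool.Agent.H826R3.SM.omegaMM F ≤ 4 * r := by
  obtain ⟨x, hx, hQx, hL⟩ := exists_good hn hQ hR
  obtain ⟨c, hcx⟩ := exists_point hK.pat x
  obtain ⟨D, hD, hc, hv⟩ := exists_dersV F σ
  obtain ⟨a, ha⟩ := exists_groups (n := n) (m := n / 5) (by omega)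
  have hne : ∀ p q i j, p ≠ q → a p i ≠ a q j := fun p q i j h h' => h (ha p q i j h').1
  refine four (v := v) (D := D) (c := c) (x := x) (L := LR (Rn P Q) x)
    (s := -((1 + θ) / MvPolynomial.eval (kx x) Q ^ 2))
    (neg_ne_zero.2 (div_ne_zero hθ (pow_ne_zero 2 hQx)))
    (value_inva hD hc hv hK hcx hQx) (by omega : 1 ≤ n / 5) a ha ?_ ?_
  · intro i j
    have h01 := hne 0 1 i i (by decide)
    have h23 := hne 2 3 j j (by decide)
    rw [wt_eq _ _ h01 h23]
    refine mul_ne_zero (mul_ne_zero (sub_ne_zero.2 fun h => h01 (hx h))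
      (sub_ne_zero.2 fun h => h23 (hx h))) (sub_ne_zero.2 ?_)
    exact hL ![a 0 i, a 1 i, a 2 j, a 3 j] (inj_four h01 (hne 0 2 i j (by decide))
      (hne 0 3 i j (by decide)) (hne 1 2 i j (by decide)) (hne 1 3 i j (by decide)) h23)
  · intro p q hpq hp hq
    have key : ∀ i j k l : Fin n, v i j = v k l → (i = k ∧ j = l) ∨ (i = l ∧ j = k) := hK.pat
    refine hr D hD hc hv (fun i => v (a p i.1) (a q i.2)) (fun j => v (a q j.1) (a 4 j.2))
      (fun l => v (a 4 l.2) (a p l.1)) ?_ ?_ ?_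
    · intro i j h
      rcases key _ _ _ _ h with ⟨h1, -⟩ | ⟨h1, -⟩
      · exact hne _ _ _ _ hpq h1
      · exact hne _ _ _ _ hp h1
    · intro i j h
      rcases key _ _ _ _ h with ⟨h1, -⟩ | ⟨-, h1⟩
      · exact hne _ _ _ _ hp h1
      · exact hne _ _ _ _ hq h1
    · intro i j h
      rcases key _ _ _ _ h with ⟨h1, -⟩ | ⟨h1, -⟩
      · exact hne _ _ _ _ hq h1
      · exact hne _ _ _ _ hpq.symm h1

variable [Fintype σ] (hn : 5 ≤ n) {θ : F} (hK : Kd v θ) (hθ : 1 + θ ≠ 0)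
  {P Q : MvPolynomial (Fin n) F} (hQ : Q ≠ 0)
  (hR : ∃ r : Fin n, (r : ℕ) + 3 ≤ n ∧ Rn P Q r ≠ 0)

include hn hK hθ hQ hR

theorem lower_P {s : ℕ} (h : CompP F σ {inva v P Q} s) :
    ((n / 5 : ℕ) : ℝ) ^ Pool.Agent.H826R3.SM.omegaMM F ≤ 36 * s + 12 := by
  refine (lower_core hn hK hθ hQ hR (r := 9 * s + 3)
    fun D hD hc hv m α β γ h1 h2 h3 => tensor_compP' hD hc hv h1 h2 h3 h).trans (le_of_eq ?_)
  push_cast
  ring

theorem lower_U {s : ℕ} (h : CompU F σ {inva v P Q} s) :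
    ((n / 5 : ℕ) : ℝ) ^ Pool.Agent.H826R3.SM.omegaMM F ≤ 12 * s := by
  refine (lower_core hn hK hθ hQ hR (r := 3 * s)
    fun D hD hc hv m α β γ h1 h2 h3 => tensor_compU hD hc hv h1 h2 h3 h).trans (le_of_eq ?_)
  push_cast
  ring

theorem lower_M {s : ℕ} (h : CompM F σ {inva v P Q} s) :
    ((n / 5 : ℕ) : ℝ) ^ Pool.Agent.H826R3.SM.omegaMM F ≤ 24 * s := by
  refine (lower_core hn hK hθ hQ hR (r := 6 * s)
    fun D hD hc hv m α β γ h1 h2 h3 => tensor_compM hD hc hv α β γ h).trans (le_of_eq ?_)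
  push_cast
  ring

end

end Pool.Agent.Q225.Sim
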