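import Pool.Agent.Q225.Sim.Main
import Pool.Agent.Q225.Dich.Upper

set_option autoImplicit false
set_option linter.unusedSectionVars false

/-!
# The coefficients of the characteristic polynomial can be computed fast
-/

namespace Pool.Agent.Q225.Sim

open Matrix Pool.Agent.Q225.Add Pool.Agent.Q225.Dich Pool.Agent.W956.KF Pool.Agent.H53R3
  Polynomial

section krylov

variable {F L : Type} [Field F] [Field L] [Algebra F L] {n : ℕ}

/-- the first `2 ^ J` columns of the Krylov matrix with the initial vector `(1, …, 1)` -/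
noncomputable def kry (X : Matrix (Fin n) (Fin n) L) (J : ℕ) : Matrix (Fin n) (Fin n) L :=
  Matrix.of fun i l => if (l : ℕ) < 2 ^ J then ((X ^ (l : ℕ)) *ᵥ 1) i else 0

/-- the Krylov matrix -/
noncomputable def kr (X : Matrix (Fin n) (Fin n) L) : Matrix (Fin n) (Fin n) L :=
  Matrix.of fun i l => ((X ^ (l : ℕ)) *ᵥ 1) i

theorem kry_eq (X : Matrix (Fin n) (Fin n) L) {J : ℕ} (hJ : n ≤ 2 ^ J) : kry X J = kr X := by
  ext i l
  simp only [kry, kr, Matrix.of_apply]
  rw [if_pos (lt_of_lt_of_le l.2 hJ)]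

theorem kry_mul (X : Matrix (Fin n) (Fin n) L) (J : ℕ) (i l : Fin n) (hl : (l : ℕ) < 2 ^ J) :
    (X ^ (2 ^ J) * kry X J) i l = ((X ^ (2 ^ J + (l : ℕ))) *ᵥ 1) i := by
  have h1 : (fun k => kry X J k l) = (X ^ (l : ℕ)) *ᵥ 1 := by
    funext k
    simp only [kry, Matrix.of_apply, if_pos hl]
  rw [pow_add, ← Matrix.mulVec_mulVec, ← h1]
  rfl

theorem reach_krylov (X : Matrix (Fin n) (Fin n) L) {T : Set L}
    (hT : ∀ c : F, algebraMap F L c ∈ T) (hX : ∀ i j, X i j ∈ T) (J : ℕ) :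
    ∃ T', ReachLe T (2 * J * sizeMM F n) T' ∧ (∀ i l, kry X J i l ∈ T') ∧
      ∀ i j, (X ^ (2 ^ J)) i j ∈ T' := by
  induction J with
  | zero =>
    refine ⟨T, ⟨0, by simp, .refl⟩, fun i l => ?_, fun i j => by simpa using hX i j⟩
    simp only [kry, Matrix.of_apply, pow_zero, Nat.lt_one_iff]
    split_ifs with h
    · rw [h]
      simpa using hT 1
    · simpa using hT 0
  | succ J ih =>
    obtain ⟨T1, r1, h1, h2⟩ := ih
    have s1 := r1.subset
    obtain ⟨T2, r2, h3⟩ := reachLe_mm (costMM_sizeMM F n) (fun c => s1 (hT c)) h2 h1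
    have s2 := r2.subset
    obtain ⟨T3, r3, h4⟩ := reachLe_mm (costMM_sizeMM F n) (fun c => s2 (s1 (hT c)))
      (fun i j => s2 (h2 i j)) (fun i j => s2 (h2 i j))
    have s3 := r3.subset
    refine ⟨T3, ((r1.trans r2).trans r3).mono (by ring_nf; rfl), fun i l => ?_, fun i j => ?_⟩
    · by_cases hl : (l : ℕ) < 2 ^ J
      · have e : kry X (J + 1) i l = kry X J i l := by
          simp only [kry, Matrix.of_apply]
          rw [if_pos hl, if_pos (lt_of_lt_of_le hl (Nat.pow_le_pow_right (by norm_num)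
            (Nat.le_succ J)))]
        rw [e]
        exact s3 (s2 (h1 i l))
      · by_cases hl' : (l : ℕ) < 2 ^ (J + 1)
        · rw [pow_succ] at hl'
          have hk : (l : ℕ) - 2 ^ J < n := lt_of_le_of_lt (Nat.sub_le _ _) l.2
          have e : kry X (J + 1) i l = (X ^ (2 ^ J) * kry X J) i ⟨(l : ℕ) - 2 ^ J, hk⟩ := by
            rw [kry_mul X J i ⟨(l : ℕ) - 2 ^ J, hk⟩ (by simp only; omega)]
            simp only [kry, Matrix.of_apply]
            rw [if_pos (by rw [pow_succ]; exact hl'), Nat.add_sub_cancel' (not_lt.1 hl)]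
          rw [e]
          exact s3 (h3 _ _)
        · have e : kry X (J + 1) i l = 0 := by
            simp only [kry, Matrix.of_apply, if_neg hl']
          rw [e]
          exact s3 (s2 (s1 (by simpa using hT 0)))
    · have e : X ^ (2 ^ (J + 1)) = X ^ (2 ^ J) * X ^ (2 ^ J) := by
        rw [← pow_add, pow_succ]
        congr 1
        ring
      rw [e]
      exact h4 i j

/-- Cayley–Hamilton -/
theorem kr_charpoly (X : Matrix (Fin n) (Fin n) L) :
    (X ^ n) *ᵥ (1 : Fin n → L) = kr X *ᵥ fun r => -X.charpoly.coeff (r : ℕ) := by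
  have h1 := Matrix.aeval_self_charpoly X
  rw [Polynomial.aeval_eq_sum_range, Matrix.charpoly_natDegree_eq_dim, Fintype.card_fin,
    Finset.sum_range_succ] at h1
  have h2 : X.charpoly.coeff n = 1 := by
    have := Matrix.charpoly_monic X
    rw [Polynomial.Monic, Polynomial.leadingCoeff, Matrix.charpoly_natDegree_eq_dim,
      Fintype.card_fin] at this
    exact this
  rw [h2, one_smul] at h1
  have h3 := congrArg (fun M => M *ᵥ (1 : Fin n → L)) h1
  simp only [Matrix.add_mulVec, Matrix.zero_mulVec] at h3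
  rw [eq_neg_of_add_eq_zero_right h3]
  funext i
  rw [Finset.sum_range, Matrix.mulVec, dotProduct]
  simp only [Pi.neg_apply, Matrix.sum_mulVec, Finset.sum_apply, Matrix.smul_mulVec,
    Pi.smul_apply, smul_eq_mul, kr, Matrix.of_apply]
  rw [← Finset.sum_neg_distrib]
  exact Finset.sum_congr rfl fun r _ => by ring

theorem reach_charpoly [Infinite F] (hn : 1 ≤ n) (X : Matrix (Fin n) (Fin n) L) {T : Set L}
    (hT : ∀ c : F, algebraMap F L c ∈ T) (hX : ∀ i j, X i j ∈ T) (hdet : (kr X).det ≠ 0) :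
    ∃ T', ReachLe T (2 * Nat.clog 2 n * sizeMM F n + 4 * sizeMM F n +
      invCost F (Nat.clog 2 n) + n) T' ∧ ∀ r : Fin n, X.charpoly.coeff (r : ℕ) ∈ T' := by
  obtain ⟨T1, r1, h1, -⟩ := reach_krylov X hT hX (Nat.clog 2 n)
  rw [kry_eq X (Nat.le_pow_clog (by norm_num) n)] at h1
  have s1 := r1.subset
  obtain ⟨T2, r2, h2⟩ := reachLe_mm (costMM_sizeMM F n) (fun c => s1 (hT c))
    (fun i j => s1 (hX i j)) h1
  have s2 := r2.subset
  obtain ⟨T3, r3, h3⟩ := reach_inverse (F := F) (fun c => s2 (s1 (hT c))) (kr X)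
    (fun i j => s2 (h1 i j)) hdet
  have s3 := r3.subset
  obtain ⟨T4, r4, h4⟩ := reachLe_mm (costMM_sizeMM F n) (fun c => s3 (s2 (s1 (hT c)))) h3
    (fun i j => s3 (h2 i j))
  have s4 := r4.subset
  have hm1 : (-1 : L) ∈ T4 := s4 (s3 (s2 (s1 (by simpa using hT (-1)))))
  let last : Fin n := ⟨n - 1, by omega⟩
  obtain ⟨T5, r5, h5⟩ := reachLe_of_cost (Cost.range (T := T4) (ι := Fin n)
    (x := fun i => -1 * ((kr X)⁻¹ * (X * kr X)) i last) (s := 1)
    fun i => Cost.mul hm1 (h4 _ _))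
  refine ⟨T5, ((((r1.trans r2).trans r3).trans r4).trans r5).mono ?_, fun r => ?_⟩
  · rw [Fintype.card_fin]
    omega
  · have e1 : (fun i => (X * kr X) i last) = (X ^ n) *ᵥ 1 := by
      have h6 : (fun k => kr X k last) = (X ^ (n - 1)) *ᵥ 1 := rfl
      have h7 : (fun i => (X * kr X) i last) = X *ᵥ fun k => kr X k last := rfl
      rw [h7, h6, Matrix.mulVec_mulVec, ← pow_succ', Nat.sub_add_cancel hn]
    have e2 : (fun i => ((kr X)⁻¹ * (X * kr X)) i last) =
        fun r : Fin n => -X.charpoly.coeff (r : ℕ) := by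
      have h7 : (fun i => ((kr X)⁻¹ * (X * kr X)) i last) =
          (kr X)⁻¹ *ᵥ fun i => (X * kr X) i last := rfl
      rw [h7, e1, kr_charpoly, Matrix.mulVec_mulVec,
        Matrix.nonsing_inv_mul _ (isUnit_iff_ne_zero.2 hdet), Matrix.one_mulVec]
    have h8 : -1 * ((kr X)⁻¹ * (X * kr X)) r last ∈ T5 := h5 ⟨r, rfl⟩
    have h9 : ((kr X)⁻¹ * (X * kr X)) r last = -X.charpoly.coeff (r : ℕ) := congrFun e2 r
    rw [h9, neg_mul_neg, one_mul] at h8
    exact h8

end krylov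

section generic

variable {F σ : Type} [Field F] [Infinite F] {n : ℕ} {v : Fin n → Fin n → σ}

theorem MV.pow {c : σ → F} {M : Matrix (Fin n) (Fin n) (Rt F σ)} {A : Matrix (Fin n) (Fin n) F}
    (h : MV c M A) (k : ℕ) : MV c (M ^ k) (A ^ k) := by
  obtain ⟨S, rfl, rfl⟩ := h
  exact ⟨S ^ k, map_pow _ _ _, map_pow _ _ _⟩

theorem det_kr_ne_zero (hP : Pat v) : (kr (gm F v)).det ≠ 0 := by
  obtain ⟨x, hx⟩ : ∃ x : Fin n → F, Function.Injective x := by
    obtain ⟨f⟩ : Nonempty (Fin n ↪ F) := ⟨(Fin.valEmbedding.trans (Infinite.natEmbedding F))⟩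
    exact ⟨f, f.injective⟩
  obtain ⟨c, hc⟩ := exists_point hP x
  have h1 : MV c (gm F v) (Matrix.diagonal x) := by
    refine mv_of fun i j => ?_
    have h2 : Vl c (gz F σ (v i j)) (c (v i j)) := by
      have := Vl.poly c (MvPolynomial.X (v i j))
      rwa [MvPolynomial.aeval_X] at this
    rw [hc] at h2
    rw [Matrix.diagonal_apply]
    exact h2
  have h2 : MV c (kr (gm F v)) (Matrix.vandermonde x) := by
    refine mv_of fun i l => ?_
    simp only [kr, Matrix.of_apply, Matrix.mulVec, dotProduct, Matrix.vandermonde_apply,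
      Pi.one_apply, mul_one]
    have := vl_sum (c := c) Finset.univ (f := fun k => ((gm F v) ^ (l : ℕ)) i k) fun k _ =>
      (h1.pow (l : ℕ)).apply i k
    convert this using 1
    rw [Matrix.diagonal_pow, Finset.sum_eq_single i]
    · simp
    · intro k _ hk
      rw [Matrix.diagonal_apply_ne _ hk.symm]
    · simp
  exact vl_ne_zero h2.det (Matrix.det_vandermonde_ne_zero_iff.2 hx)

/-- the number of operations for the coefficients -/
noncomputable def chCost (F : Type) [Field F] (n : ℕ) : ℕ :=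
  2 * Nat.clog 2 n * sizeMM F n + 4 * sizeMM F n + invCost F (Nat.clog 2 n) + n

theorem reach_kap (hP : Pat v) : ∃ T', ReachLe (Given F σ) (chCost F n) T' ∧
    ∀ r : Fin n, kap F v (r : ℕ) ∈ T' := by
  rcases Nat.eq_zero_or_pos n with h0 | h0
  · subst h0
    exact ⟨Given F σ, ⟨0, Nat.zero_le _, .refl⟩, fun r => r.elim0⟩
  · exact reach_charpoly h0 (gm F v) (fun c => Or.inl ⟨c, rfl⟩) (fun i j => Or.inr ⟨_, rfl⟩)
      (det_kr_ne_zero hP)

theorem clog_bound {ε : ℝ} (hε : 0 < ε) : ∃ C : ℝ, 0 ≤ C ∧ ∀ n : ℕ, 1 ≤ n →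
    (Nat.clog 2 n : ℝ) ≤ C * (n : ℝ) ^ ε := by
  refine ⟨2 / ε + 1, by positivity, fun n hn => ?_⟩
  have hn1 : (1 : ℝ) ≤ n := by exact_mod_cast hn
  have h1 : (1 : ℝ) ≤ (n : ℝ) ^ ε := Real.one_le_rpow hn1 hε.le
  have h2 : (Nat.clog 2 n : ℝ) ≤ Real.log n / Real.log 2 + 1 := by
    rcases Nat.lt_or_ge 1 n with h | h
    · have h3 := Nat.pow_pred_clog_lt_self (b := 2) (by norm_num) h
      have h4 : ((2 : ℝ)) ^ (Nat.clog 2 n).pred ≤ n := by exact_mod_cast h3.le
      have h5 : ((Nat.clog 2 n).pred : ℝ) * Real.log 2 ≤ Real.log n := by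
        rw [← Real.log_pow]
        exact Real.log_le_log (by positivity) h4
      have h6 : 0 < Real.log 2 := Real.log_pos (by norm_num)
      have h7 : ((Nat.clog 2 n).pred : ℝ) ≤ Real.log n / Real.log 2 := by
        rw [le_div_iff₀ h6]
        exact h5
      have h8 : (Nat.clog 2 n : ℝ) ≤ ((Nat.clog 2 n).pred : ℝ) + 1 := by
        exact_mod_cast Nat.le_succ_of_pred_le le_rfl
      linarith
    · have : n = 1 := by omega
      subst this
      simp
  have h3 : Real.log n ≤ (n : ℝ) ^ ε / ε := Real.log_le_rpow_div (by linarith) hε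
  have h4 : 1 / 2 < Real.log 2 := by
    have := Real.log_two_gt_d9
    linarith
  have h5 : Real.log n / Real.log 2 ≤ 2 * ((n : ℝ) ^ ε / ε) := by
    rw [div_le_iff₀ (by linarith)]
    have h6 : 0 ≤ Real.log n := Real.log_nonneg hn1
    nlinarith
  have h6 : 2 * ((n : ℝ) ^ ε / ε) = 2 / ε * (n : ℝ) ^ ε := by ring
  nlinarith

theorem chCost_upper {τ : ℝ} (hτ : Pool.Agent.H826R3.SM.omegaMM F < τ) :
    ∃ D : ℝ, 0 ≤ D ∧ ∀ n : ℕ, 1 ≤ n → (chCost F n : ℝ) ≤ D * (n : ℝ) ^ τ := by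
  obtain ⟨τ', h1, h2⟩ := exists_between hτ
  obtain ⟨D₁, hD₁⟩ := sizeMM_upper h1
  obtain ⟨D₂, hD₂0, hD₂⟩ := invCost_clog hτ
  obtain ⟨C, hC0, hC⟩ := clog_bound (sub_pos.2 h2)
  have h22 : 2 ≤ τ := (two_le_omegaMM F).trans hτ.le
  refine ⟨2 * (C * |D₁|) + 4 * |D₁| + D₂ + 1, by positivity, fun n hn => ?_⟩
  have hn1 : (1 : ℝ) ≤ n := by exact_mod_cast hn
  have h5 : (sizeMM F n : ℝ) ≤ |D₁| * (n : ℝ) ^ τ' :=
    (hD₁ n).trans (mul_le_mul_of_nonneg_right (le_abs_self _) (by positivity))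
  have h6 : (n : ℝ) ^ τ' ≤ (n : ℝ) ^ τ := Real.rpow_le_rpow_of_exponent_le hn1 h2.le
  have h7 : (n : ℝ) ^ (τ - τ') * (n : ℝ) ^ τ' = (n : ℝ) ^ τ := by
    rw [← Real.rpow_add (by linarith), sub_add_cancel]
  have h8 : (Nat.clog 2 n : ℝ) * sizeMM F n ≤ C * |D₁| * (n : ℝ) ^ τ := by
    calc (Nat.clog 2 n : ℝ) * sizeMM F n ≤ (C * (n : ℝ) ^ (τ - τ')) * (|D₁| * (n : ℝ) ^ τ') :=
          mul_le_mul (hC n hn) h5 (by positivity) (by positivity)
      _ = C * |D₁| * ((n : ℝ) ^ (τ - τ') * (n : ℝ) ^ τ') := by ring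
      _ = _ := by rw [h7]
  have h9 : (sizeMM F n : ℝ) ≤ |D₁| * (n : ℝ) ^ τ :=
    h5.trans (mul_le_mul_of_nonneg_left h6 (abs_nonneg _))
  have h10 := hD₂ n hn
  have h11 : (n : ℝ) ≤ (n : ℝ) ^ τ := by
    calc (n : ℝ) = (n : ℝ) ^ (1 : ℝ) := (Real.rpow_one _).symm
      _ ≤ _ := Real.rpow_le_rpow_of_exponent_le hn1 (by linarith)
  rw [chCost]
  push_cast
  nlinarith

end generic

end Pool.Agent.Q225.Sim
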