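import Pool.Agent.Q225.Sim.Jt

set_option autoImplicit false
set_option linter.unusedSectionVars false

/-!
# Third derivatives of the characteristic polynomial at diagonal matrices
-/

namespace Pool.Agent.Q225.Sim

open Matrix Pool.Agent.Q225.Add Pool.Agent.Q225.Dich Pool.Agent.W956.KF Pool.Agent.H53R3

section mv

variable {F σ ι : Type} [Field F] [Fintype ι] [DecidableEq ι]

/-- the matrix `M` of rational functions is defined at `c` and has the value `A` there -/
def MV (c : σ → F) (M : Matrix ι ι (Rt F σ)) (A : Matrix ι ι F) : Prop :=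
  ∃ S : Matrix ι ι (Sc c), (io c).mapMatrix S = M ∧ (pr c).mapMatrix S = A

variable {c : σ → F} {M M' : Matrix ι ι (Rt F σ)} {A A' : Matrix ι ι F}

theorem MV.mul (h : MV c M A) (h' : MV c M' A') : MV c (M * M') (A * A') := by
  obtain ⟨S, rfl, rfl⟩ := h
  obtain ⟨T, rfl, rfl⟩ := h'
  exact ⟨S * T, map_mul _ _ _, map_mul _ _ _⟩

theorem MV.sub (h : MV c M A) (h' : MV c M' A') : MV c (M - M') (A - A') := by
  obtain ⟨S, rfl, rfl⟩ := h
  obtain ⟨T, rfl, rfl⟩ := h'
  exact ⟨S - T, map_sub _ _ _, map_sub _ _ _⟩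

theorem mv_of {M : Matrix ι ι (Rt F σ)} {A : Matrix ι ι F} (h : ∀ i j, Vl c (M i j) (A i j)) :
    MV c M A := by
  choose S h1 h2 using h
  exact ⟨Matrix.of S, Matrix.ext h1, Matrix.ext h2⟩

theorem MV.apply (h : MV c M A) (i j : ι) : Vl c (M i j) (A i j) := by
  obtain ⟨S, rfl, rfl⟩ := h
  exact ⟨S i j, rfl, rfl⟩

theorem MV.trace (h : MV c M A) : Vl c M.trace A.trace :=
  vl_sum _ fun i _ => h.apply i i

theorem MV.det (h : MV c M A) : Vl c M.det A.det := by
  obtain ⟨S, rfl, rfl⟩ := h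
  exact ⟨S.det, AlgHom.map_det _ _, AlgHom.map_det _ _⟩

theorem MV.inv (h : MV c M A) (hA : A.det ≠ 0) : MV c M⁻¹ A⁻¹ := by
  obtain ⟨S, rfl, rfl⟩ := h
  have h1 : IsUnit S := mat_local (pr c) (pr_local c) S
    ((Matrix.isUnit_iff_isUnit_det _).2 (isUnit_iff_ne_zero.2 hA))
  have h2 : S * S⁻¹ = 1 := Matrix.mul_nonsing_inv S ((Matrix.isUnit_iff_isUnit_det _).1 h1)
  refine ⟨S⁻¹, ?_, ?_⟩
  · symm
    refine Matrix.inv_eq_right_inv ?_
    rw [← map_mul, h2, map_one]
  · symm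
    refine Matrix.inv_eq_right_inv ?_
    rw [← map_mul, h2, map_one]

end mv

section

variable {F σ : Type} [Field F] [DecidableEq σ] {n : ℕ}

/-- the matrix of the variables `v i j` -/
noncomputable def gm (F : Type) [Field F] {σ : Type} {n : ℕ} (v : Fin n → Fin n → σ) :
    Matrix (Fin n) (Fin n) (Rt F σ) := Matrix.of fun i j => gz F σ (v i j)

/-- the positions of the variable `w` -/
def pos (R : Type) [Zero R] [One R] {σ : Type} [DecidableEq σ] {n : ℕ} (v : Fin n → Fin n → σ) (w : σ) :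
    Matrix (Fin n) (Fin n) R := Matrix.of fun i j => if v i j = w then 1 else 0

variable (v : Fin n → Fin n → σ) {D : σ → Rt F σ → Rt F σ} (hD : ∀ x, IsDer (D x))
  (hc : ∀ x (c : F), D x (algebraMap F _ c) = 0)
  (hv : ∀ x j, D x (gz F σ j) = if j = x then 1 else 0)

/-- the characteristic matrix -/
noncomputable def cm (τ : F) : Matrix (Fin n) (Fin n) (Rt F σ) :=
  algebraMap F (Matrix (Fin n) (Fin n) (Rt F σ)) τ - gm F v

include hD hc hv

theorem dMat_cm (τ : F) (w : σ) : dMat (D w) (cm v τ) = -pos (Rt F σ) v w := by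
  ext i j
  simp only [dMat, Matrix.map_apply, cm, Matrix.sub_apply, gm, Matrix.of_apply, pos,
    Matrix.neg_apply, (hD w).sub, hv, Matrix.algebraMap_matrix_apply]
  split_ifs <;> simp [hc, (hD w).zero]

theorem dMat_pos (u w : σ) : dMat (D u) (pos (Rt F σ) v w) = 0 := by
  ext i j
  simp only [dMat, Matrix.map_apply, pos, Matrix.of_apply, Matrix.zero_apply]
  split_ifs
  · exact (hD u).one
  · exact (hD u).zero

theorem dMat_cm_inv (τ : F) (hu : IsUnit (cm v τ).det) (w : σ) :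
    dMat (D w) (cm v τ)⁻¹ = (cm v τ)⁻¹ * pos (Rt F σ) v w * (cm v τ)⁻¹ := by
  rw [(hD w).dMat_inv _ hu, dMat_cm v hD hc hv]
  noncomm_ring

theorem der_det_cm (τ : F) (hu : IsUnit (cm v τ).det) (w : σ) :
    D w (cm v τ).det = -((cm v τ).det * ((cm v τ)⁻¹ * pos (Rt F σ) v w).trace) := by
  rw [(hD w).det _ hu, dMat_cm v hD hc hv, Matrix.mul_neg, Matrix.trace_neg, mul_neg]

theorem der_one (τ : F) (hu : IsUnit (cm v τ).det) (a b : σ) :
    D a ((cm v τ)⁻¹ * pos (Rt F σ) v b).trace =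
      ((cm v τ)⁻¹ * pos (Rt F σ) v a * (cm v τ)⁻¹ * pos (Rt F σ) v b).trace := by
  rw [(hD a).trace, (hD a).dMat_mul, dMat_pos v hD hc hv, dMat_cm_inv v hD hc hv τ hu, mul_zero,
    add_zero]

theorem der_two (τ : F) (hu : IsUnit (cm v τ).det) (a b g : σ) :
    D a ((cm v τ)⁻¹ * pos (Rt F σ) v b * (cm v τ)⁻¹ * pos (Rt F σ) v g).trace =
      ((cm v τ)⁻¹ * pos (Rt F σ) v a * (cm v τ)⁻¹ * pos (Rt F σ) v b * (cm v τ)⁻¹ *
        pos (Rt F σ) v g).trace +
      ((cm v τ)⁻¹ * pos (Rt F σ) v b * (cm v τ)⁻¹ * pos (Rt F σ) v a * (cm v τ)⁻¹ *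
        pos (Rt F σ) v g).trace := by
  rw [(hD a).trace, (hD a).dMat_mul, dMat_pos v hD hc hv, mul_zero, add_zero, (hD a).dMat_mul,
    (hD a).dMat_mul, dMat_pos v hD hc hv, mul_zero, add_zero, dMat_cm_inv v hD hc hv τ hu,
    Matrix.add_mul, Matrix.trace_add]
  simp only [Matrix.mul_assoc]

/-- the values of the derivatives of `det (τ - X)` at a point with the value `A` of
`(τ - X)⁻¹` -/
theorem jt_det {c : σ → F} (τ : F) {A : Matrix (Fin n) (Fin n) F} (hA : MV c (cm v τ) A)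
    (h0 : A.det ≠ 0) {a b g : σ} (ha : (A⁻¹ * pos F v a).trace = 0)
    (hb : (A⁻¹ * pos F v b).trace = 0) (hg : (A⁻¹ * pos F v g).trace = 0)
    (hab : (A⁻¹ * pos F v a * A⁻¹ * pos F v b).trace = 0)
    (hag : (A⁻¹ * pos F v a * A⁻¹ * pos F v g).trace = 0)
    (hbg : (A⁻¹ * pos F v b * A⁻¹ * pos F v g).trace = 0) :
    Jt c D a b g (cm v τ).det A.det (-(A.det *
      ((A⁻¹ * pos F v a * A⁻¹ * pos F v b * A⁻¹ * pos F v g).trace +
      (A⁻¹ * pos F v b * A⁻¹ * pos F v a * A⁻¹ * pos F v g).trace))) := by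
  have hu : IsUnit (cm v τ).det := isUnit_iff_ne_zero.2 (vl_ne_zero hA.det h0)
  have hi : MV c (cm v τ)⁻¹ A⁻¹ := hA.inv h0
  have hp : ∀ w, MV c (pos (Rt F σ) v w) (pos F v w) := fun w => mv_of fun i j => by
    simp only [pos, Matrix.of_apply]
    split_ifs
    · exact vl_one c
    · exact vl_zero c
  have t1 : ∀ w, Vl c ((cm v τ)⁻¹ * pos (Rt F σ) v w).trace (A⁻¹ * pos F v w).trace :=
    fun w => (hi.mul (hp w)).trace
  have t2 : ∀ u w, Vl c ((cm v τ)⁻¹ * pos (Rt F σ) v u * (cm v τ)⁻¹ * pos (Rt F σ) v w).trace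
      (A⁻¹ * pos F v u * A⁻¹ * pos F v w).trace :=
    fun u w => (((hi.mul (hp u)).mul hi).mul (hp w)).trace
  have t3 : ∀ s u w, Vl c ((cm v τ)⁻¹ * pos (Rt F σ) v s * (cm v τ)⁻¹ * pos (Rt F σ) v u *
      (cm v τ)⁻¹ * pos (Rt F σ) v w).trace
      (A⁻¹ * pos F v s * A⁻¹ * pos F v u * A⁻¹ * pos F v w).trace :=
    fun s u w => (((((hi.mul (hp s)).mul hi).mul (hp u)).mul hi).mul (hp w)).trace
  have d1 := fun w => der_det_cm v hD hc hv τ hu w
  have hd : Vl c (cm v τ).det A.det := hA.det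
  have d2 : ∀ u w, D u (D w (cm v τ).det) = (cm v τ).det *
      (((cm v τ)⁻¹ * pos (Rt F σ) v u).trace * ((cm v τ)⁻¹ * pos (Rt F σ) v w).trace -
      ((cm v τ)⁻¹ * pos (Rt F σ) v u * (cm v τ)⁻¹ * pos (Rt F σ) v w).trace) := fun u w => by
    rw [d1 w, (hD u).neg, (hD u).mul, der_one v hD hc hv τ hu, d1 u]
    ring
  have d3 : ∀ s u w, D s (D u (D w (cm v τ).det)) = D s (cm v τ).det *
      (((cm v τ)⁻¹ * pos (Rt F σ) v u).trace * ((cm v τ)⁻¹ * pos (Rt F σ) v w).trace -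
      ((cm v τ)⁻¹ * pos (Rt F σ) v u * (cm v τ)⁻¹ * pos (Rt F σ) v w).trace) +
      (cm v τ).det *
      ((((cm v τ)⁻¹ * pos (Rt F σ) v s * (cm v τ)⁻¹ * pos (Rt F σ) v u).trace *
        ((cm v τ)⁻¹ * pos (Rt F σ) v w).trace +
        ((cm v τ)⁻¹ * pos (Rt F σ) v u).trace *
        ((cm v τ)⁻¹ * pos (Rt F σ) v s * (cm v τ)⁻¹ * pos (Rt F σ) v w).trace) -
      (((cm v τ)⁻¹ * pos (Rt F σ) v s * (cm v τ)⁻¹ * pos (Rt F σ) v u * (cm v τ)⁻¹ *
        pos (Rt F σ) v w).trace +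
      ((cm v τ)⁻¹ * pos (Rt F σ) v u * (cm v τ)⁻¹ * pos (Rt F σ) v s * (cm v τ)⁻¹ *
        pos (Rt F σ) v w).trace)) := fun s u w => by
    rw [d2 u w, (hD s).mul, (hD s).sub, (hD s).mul, der_one v hD hc hv τ hu,
      der_one v hD hc hv τ hu, der_two v hD hc hv τ hu]
  have v1 : ∀ w, (A⁻¹ * pos F v w).trace = 0 → Vl c (D w (cm v τ).det) 0 := fun w hw => by
    rw [d1]
    have := vl_neg (hd.mul (t1 w))
    rwa [hw, mul_zero, neg_zero] at this
  have v2 : ∀ u w, (A⁻¹ * pos F v u).trace = 0 → (A⁻¹ * pos F v w).trace = 0 →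
      (A⁻¹ * pos F v u * A⁻¹ * pos F v w).trace = 0 → Vl c (D u (D w (cm v τ).det)) 0 := by
    intro u w h1 h2 h3
    rw [d2]
    have := hd.mul (vl_sub ((t1 u).mul (t1 w)) (t2 u w))
    rwa [h1, h2, h3, mul_zero, sub_zero, mul_zero] at this
  refine ⟨hd, v1 a ha, v1 b hb, v1 g hg, v2 a b ha hb hab, v2 a g ha hg hag,
    v2 b g hb hg hbg, ?_⟩
  rw [d3]
  have := ((v1 a ha).mul (vl_sub ((t1 b).mul (t1 g)) (t2 b g))).add
    (hd.mul (vl_sub (((t2 a b).mul (t1 g)).add ((t1 b).mul (t2 a g)))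
      ((t3 a b g).add (t3 b a g))))
  rw [hab, hag, hg, hb] at this
  convert this using 1
  ring

end

section diag

variable {F σ : Type} [Field F] [DecidableEq σ] {n : ℕ} {v : Fin n → Fin n → σ}

/-- Positions of the same variable are equal or symmetric to each other. -/
def Pat (v : Fin n → Fin n → σ) : Prop :=
  ∀ i j k l, v i j = v k l → (i = k ∧ j = l) ∨ (i = l ∧ j = k)

theorem trace_one (hP : Pat v) (y : Fin n → F) {i j : Fin n} (hij : i ≠ j) :
    (Matrix.diagonal y * pos F v (v i j)).trace = 0 := by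
  rw [Matrix.trace]
  refine Finset.sum_eq_zero fun a _ => ?_
  rw [Matrix.diag_apply, Matrix.diagonal_mul, pos, Matrix.of_apply, if_neg, mul_zero]
  intro h
  rcases hP _ _ _ _ h with ⟨h1, h2⟩ | ⟨h1, h2⟩
  · exact hij (h1.symm.trans h2)
  · exact hij (h2.symm.trans h1)

theorem trace_two (hP : Pat v) (y : Fin n → F) {i j k l : Fin n} (h1 : ¬ (i = k ∧ j = l))
    (h2 : ¬ (i = l ∧ j = k)) :
    (Matrix.diagonal y * pos F v (v i j) * Matrix.diagonal y * pos F v (v k l)).trace = 0 := by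
  rw [Matrix.mul_assoc _ (Matrix.diagonal y), Matrix.trace]
  refine Finset.sum_eq_zero fun a _ => ?_
  rw [Matrix.diag_apply, Matrix.mul_apply]
  refine Finset.sum_eq_zero fun b _ => ?_
  rw [Matrix.diagonal_mul, Matrix.diagonal_mul, pos, pos, Matrix.of_apply, Matrix.of_apply]
  by_cases ha : v a b = v i j
  · by_cases hb : v b a = v k l
    · exfalso
      rcases hP _ _ _ _ ha with ⟨rfl, rfl⟩ | ⟨rfl, rfl⟩ <;>
        rcases hP _ _ _ _ hb with ⟨rfl, rfl⟩ | ⟨rfl, rfl⟩ <;> simp at h1 h2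
    · rw [if_neg hb, mul_zero, mul_zero]
  · rw [if_neg ha, mul_zero, zero_mul]

/-- general matrices (`θ = 0`) and symmetric matrices (`θ = 1`) -/
def Kd (v : Fin n → Fin n → σ) (θ : F) : Prop :=
  (θ = 0 ∧ ∀ i j k l, v i j = v k l → i = k ∧ j = l) ∨
    (θ = 1 ∧ Pat v ∧ ∀ i j, v i j = v j i)

theorem Kd.pat {θ : F} (h : Kd v θ) : Pat v := by
  rcases h with ⟨-, h⟩ | ⟨-, h, -⟩
  · exact fun i j k l hv => Or.inl (h i j k l hv)
  · exact h

theorem trace_abc (A B C : Matrix (Fin n) (Fin n) F) :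
    (A * (B * C)).trace = ∑ p, ∑ q, ∑ r, A p q * B q r * C r p := by
  rw [Matrix.trace]
  refine Finset.sum_congr rfl fun p _ => ?_
  rw [Matrix.diag_apply, Matrix.mul_apply]
  refine Finset.sum_congr rfl fun q _ => ?_
  rw [Matrix.mul_apply, Finset.mul_sum]
  exact Finset.sum_congr rfl fun r _ => by ring

theorem trace_three_eq (y : Fin n → F) (a b g : σ) :
    (Matrix.diagonal y * pos F v a * Matrix.diagonal y * pos F v b * Matrix.diagonal y *
      pos F v g).trace = ∑ p, ∑ q, ∑ r, (if v p q = a then y p else 0) *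
        (if v q r = b then y q else 0) * (if v r p = g then y r else 0) := by
  have e : Matrix.diagonal y * pos F v a * Matrix.diagonal y * pos F v b * Matrix.diagonal y *
      pos F v g = (Matrix.diagonal y * pos F v a) * ((Matrix.diagonal y * pos F v b) *
        (Matrix.diagonal y * pos F v g)) := by
    simp only [Matrix.mul_assoc]
  rw [e, trace_abc]
  refine Finset.sum_congr rfl fun p _ => Finset.sum_congr rfl fun q _ =>
    Finset.sum_congr rfl fun r _ => ?_
  simp only [Matrix.diagonal_mul, pos, Matrix.of_apply, mul_ite, mul_one, mul_zero]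

section three

variable {i j j' k k' i' : Fin n} (h1 : i ≠ j) (h2 : i ≠ j') (h3 : i ≠ k) (h4 : i ≠ k')
  (h5 : i' ≠ j) (h6 : i' ≠ j') (h7 : i' ≠ k) (h8 : i' ≠ k') (h9 : j ≠ k) (h10 : j ≠ k')
  (h11 : j' ≠ k) (h12 : j' ≠ k')

include h1 h2 h3 h4 h5 h6 h7 h8 h9 h10 h11 h12

theorem trace_three (hP : Pat v) (y : Fin n → F) :
    (Matrix.diagonal y * pos F v (v i j) * Matrix.diagonal y * pos F v (v j' k) *
      Matrix.diagonal y * pos F v (v k' i')).trace =
      if j = j' ∧ k = k' ∧ i = i' then y i * y j * y k else 0 := by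
  rw [trace_three_eq]
  by_cases hm : j = j' ∧ k = k' ∧ i = i'
  · rw [if_pos hm]
    obtain ⟨rfl, rfl, rfl⟩ := hm
    rw [Finset.sum_eq_single i, Finset.sum_eq_single j, Finset.sum_eq_single k]
    · simp
    · intro r _ hr
      have : ¬ v r i = v k i := by
        intro h
        rcases hP _ _ _ _ h with ⟨h', -⟩ | ⟨-, h'⟩
        · exact hr h'
        · exact h3 h'
      rw [if_neg this, mul_zero]
    · simp
    · intro q _ hq
      have : ¬ v i q = v i j := by
        intro h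
        rcases hP _ _ _ _ h with ⟨-, h'⟩ | ⟨h', -⟩
        · exact hq h'
        · exact h1 h'
      refine Finset.sum_eq_zero fun r _ => ?_
      rw [if_neg this, zero_mul, zero_mul]
    · simp
    · intro p _ hp
      refine Finset.sum_eq_zero fun q _ => Finset.sum_eq_zero fun r _ => ?_
      by_cases a : v p q = v i j
      · by_cases b : v r p = v k i
        · exfalso
          rcases hP _ _ _ _ a with ⟨h', -⟩ | ⟨h', -⟩
          · exact hp h'
          · rcases hP _ _ _ _ b with ⟨-, h''⟩ | ⟨-, h''⟩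
            · exact hp h''
            · exact h9 (h'.symm.trans h'')
        · rw [if_neg b, mul_zero]
      · rw [if_neg a, zero_mul, zero_mul]
    · simp
  · rw [if_neg hm]
    refine Finset.sum_eq_zero fun p _ => Finset.sum_eq_zero fun q _ =>
      Finset.sum_eq_zero fun r _ => ?_
    by_cases a : v p q = v i j
    · by_cases b : v q r = v j' k
      · by_cases g : v r p = v k' i'
        · exfalso
          apply hm
          rcases hP _ _ _ _ a with ⟨rfl, rfl⟩ | ⟨rfl, rfl⟩ <;>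
            rcases hP _ _ _ _ b with ⟨rfl, rfl⟩ | ⟨rfl, rfl⟩ <;>
            rcases hP _ _ _ _ g with ⟨rfl, rfl⟩ | ⟨rfl, rfl⟩ <;> simp_all
        · rw [if_neg g, mul_zero]
      · rw [if_neg b, mul_zero, zero_mul]
    · rw [if_neg a, zero_mul, zero_mul]

theorem trace_three' {θ : F} (hP : Kd v θ) (y : Fin n → F) :
    (Matrix.diagonal y * pos F v (v j' k) * Matrix.diagonal y * pos F v (v i j) *
      Matrix.diagonal y * pos F v (v k' i')).trace =
      if j = j' ∧ k = k' ∧ i = i' then θ * (y i * y j * y k) else 0 := by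
  rcases hP with ⟨rfl, hP⟩ | ⟨rfl, hP, hs⟩
  · rw [trace_three_eq]
    simp only [zero_mul, ite_self]
    refine Finset.sum_eq_zero fun p _ => Finset.sum_eq_zero fun q _ =>
      Finset.sum_eq_zero fun r _ => ?_
    by_cases a : v p q = v j' k
    · by_cases b : v q r = v i j
      · exfalso
        exact h3 ((hP _ _ _ _ b).1.symm.trans (hP _ _ _ _ a).2)
      · rw [if_neg b, mul_zero, zero_mul]
    · rw [if_neg a, zero_mul, zero_mul]
  · rw [hs j' k, hs i j, hs k' i']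
    rw [trace_three h11.symm h9.symm h3.symm h7.symm h12.symm h10.symm h4.symm h8.symm h2.symm
      h6.symm h1.symm h5.symm hP y]
    by_cases hm : j = j' ∧ k = k' ∧ i = i'
    · obtain ⟨rfl, rfl, rfl⟩ := hm
      simp only [and_self, if_true, one_mul]
      ring
    · rw [if_neg hm, if_neg]
      rintro ⟨a, b, c⟩
      exact hm ⟨a.symm, c, b⟩

end three

end diag

end Pool.Agent.Q225.Sim
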